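import Pool.Agent.GR11.Defs

/-! # Composition of the rows -/

namespace Pool.Agent.GR11.Comp73

open Pool.Agent.GR11

/-- Everything about the sequence `n_g` which the rows give: it is attained, positive, monotone
and polynomially bounded. -/
theorem seq_props (hB : RowB) (hC1 : RowC1) (hC2 : RowC2) (hD : RowD) :
    ∀ g : ℕ, 3 ≤ g → ∃ C : ℕ, (∀ k : ℕ, 1 ≤ k → 1 ≤ ng g k ∧ ng g k ≤ ng g (k + 1)) ∧
      (∀ k : ℕ, 1 ≤ k → ng g (k + 1) ≤ C * k ^ C) ∧
      ∀ k : ℕ, 1 ≤ k → ∃ G : SimpleGraph (Fin (ng g k)),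
        G.chromaticNumber = (k : ℕ∞) ∧ (g : ℕ∞) ≤ G.egirth := by
  intro g hg3
  obtain ⟨C, hC⟩ := hD g hg3
  -- the set of orders is nonempty for every k >= 1, with the polynomial bound
  have hbig : ∀ k : ℕ, 1 ≤ k → ng g (k + 1) ≤ C * k ^ C ∧
      ∃ n, ∃ H : SimpleGraph (Fin n), H.chromaticNumber = ((k + 1 : ℕ) : ℕ∞) ∧
        (g : ℕ∞) ≤ H.egirth := by
    intro k hk
    obtain ⟨n, L, a, t, hL, hnt, ha, hLa, hsum, hka, hn⟩ := hC k hk
    obtain ⟨G, S, hS, hind, hcyc⟩ := hB n L a t g hL hnt ha hLa hsum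
    obtain ⟨V, hV, H, hcard, hgirth, hcol⟩ := hC2 n a g k G S hS hind hcyc hka
    obtain ⟨h1, m, -, H', h2, h3⟩ := hC1 V H g k hgirth hcol
    exact ⟨(h1.trans hcard).trans hn, m, H', h2, h3⟩
  have hone : ∃ n, ∃ H : SimpleGraph (Fin n), H.chromaticNumber = ((0 + 1 : ℕ) : ℕ∞) ∧
      (g : ℕ∞) ≤ H.egirth := by
    obtain ⟨-, m, -, H', h2, h3⟩ := hC1 (Fin 1) ⊥ g 0 (by simp) (by
      intro h
      rw [SimpleGraph.colorable_zero_iff] at h
      exact h.false 0)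
    exact ⟨m, H', h2, h3⟩
  have hne : ∀ k : ℕ, 1 ≤ k → ({n : ℕ | ∃ G : SimpleGraph (Fin n),
      G.chromaticNumber = (k : ℕ∞) ∧ (g : ℕ∞) ≤ G.egirth}).Nonempty := by
    intro k hk
    rcases Nat.lt_or_ge 1 k with h | h
    · obtain ⟨-, n, H, h1, h2⟩ := hbig (k - 1) (by omega)
      rw [Nat.sub_add_cancel hk] at h1
      exact ⟨n, H, h1, h2⟩
    · obtain ⟨n, H, h1, h2⟩ := hone
      have : k = 0 + 1 := by omega
      rw [← this] at h1
      exact ⟨n, H, h1, h2⟩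
  have hmem : ∀ k : ℕ, 1 ≤ k → ∃ G : SimpleGraph (Fin (ng g k)),
      G.chromaticNumber = (k : ℕ∞) ∧ (g : ℕ∞) ≤ G.egirth := fun k hk => Nat.sInf_mem (hne k hk)
  have hu : ∀ k : ℕ, 1 ≤ k → 1 ≤ ng g k ∧ ng g k ≤ ng g (k + 1) := by
    intro k hk
    constructor
    · obtain ⟨G, h1, -⟩ := hmem k hk
      by_contra h0
      have h0' : ng g k = 0 := by omega
      have hcol : G.Colorable 0 := by
        rw [SimpleGraph.colorable_zero_iff]
        rw [h0']
        infer_instance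
      have hle := SimpleGraph.chromaticNumber_le_iff_colorable.2 hcol
      rw [h1] at hle
      have : k ≤ 0 := by exact_mod_cast hle
      omega
    · obtain ⟨G, h1, h2⟩ := hmem (k + 1) (by omega)
      have hnc : ¬ G.Colorable (k - 1) := by
        intro h
        have hle := SimpleGraph.chromaticNumber_le_iff_colorable.2 h
        rw [h1] at hle
        have : k + 1 ≤ k - 1 := by exact_mod_cast hle
        omega
      have h3 := (hC1 _ G g (k - 1) h2 hnc).1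
      rwa [Nat.sub_add_cancel hk, Fintype.card_fin] at h3
  exact ⟨C, hu, fun k hk => (hbig k hk).1, hmem⟩

theorem main_of (hB : RowB) (hC1 : RowC1) (hC2 : RowC2) (hD : RowD) (hE : RowE) :
    ∀ g : ℕ, 3 ≤ g → ∀ c : ℝ, 1 < c → ∃ A : ℝ, ∀ K : ℕ, 2 ≤ K →
      (((Finset.Icc 1 K).filter
        (fun k => c * (ng g k : ℝ) < (ng g (k + 1) : ℝ))).card : ℝ) ≤ A * Real.log K := by
  intro g hg3 c hc
  obtain ⟨C, h1, h2, -⟩ := seq_props hB hC1 hC2 hD g hg3
  exact hE (ng g) C h1 h2 c hc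

end Pool.Agent.GR11.Comp73
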