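import Mathlib

/-! # Smallest `k`-chromatic graphs of given girth -/

namespace Pool.Agent.GR11

/-- `n_g(k)`: the least order of a `k`-chromatic graph of girth at least `g` -/
noncomputable def ng (g k : ℕ) : ℕ :=
  sInf {n : ℕ | ∃ G : SimpleGraph (Fin n), G.chromaticNumber = (k : ℕ∞) ∧ (g : ℕ∞) ≤ G.egirth}

/-- `v 0, ..., v (l - 1)` is a cycle of length `l` -/
def Cyc {V : Type*} (G : SimpleGraph V) (l : ℕ) (v : ℕ → V) : Prop :=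
  (∀ i < l, ∀ j < l, v i = v j → i = j) ∧ (∀ i, i + 1 < l → G.Adj (v i) (v (i + 1))) ∧
    G.Adj (v (l - 1)) (v 0)

/-- row A -/
def RowA : Prop := ∀ (V : Type) (G : SimpleGraph V) (g : ℕ),
  (∀ l, 3 ≤ l → l < g → ∀ v : ℕ → V, ¬ Cyc G l v) → (g : ℕ∞) ≤ G.egirth

/-- row B: the counting argument -/
def RowB : Prop := ∀ n L a t g : ℕ, 1 ≤ L → 2 * n ≤ 2 ^ t → 2 ≤ a → 2 * L * t < a →
  4 * (∑ l ∈ Finset.Ico 3 g, n ^ l * L ^ (g - l)) < n * L ^ g →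
  ∃ (G : SimpleGraph (Fin n)) (S : Finset (Fin n)), 2 * S.card < n ∧
    (∀ A : Finset (Fin n), A.card = a → ∃ x ∈ A, ∃ y ∈ A, G.Adj x y) ∧
    ∀ l, 3 ≤ l → l < g → ∀ v : ℕ → Fin n, Cyc G l v → v 0 ∈ S

/-- row C1: exact chromatic number -/
def RowC1 : Prop := ∀ (V : Type) [Fintype V] (G : SimpleGraph V) (g k : ℕ),
  (g : ℕ∞) ≤ G.egirth → ¬ G.Colorable k → ng g (k + 1) ≤ Fintype.card V ∧
    ∃ n ≤ Fintype.card V, ∃ H : SimpleGraph (Fin n), H.chromaticNumber = ((k + 1 : ℕ) : ℕ∞) ∧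
      (g : ℕ∞) ≤ H.egirth

/-- row C2: one vertex set of the graph of row B, deletion -/
def RowC2 : Prop := ∀ (n a g k : ℕ) (G : SimpleGraph (Fin n)) (S : Finset (Fin n)),
  2 * S.card < n → (∀ A : Finset (Fin n), A.card = a → ∃ x ∈ A, ∃ y ∈ A, G.Adj x y) →
  (∀ l, 3 ≤ l → l < g → ∀ v : ℕ → Fin n, Cyc G l v → v 0 ∈ S) → 2 * k * a ≤ n →
  ∃ (V : Type) (_ : Fintype V) (H : SimpleGraph V), Fintype.card V ≤ n ∧ (g : ℕ∞) ≤ H.egirth ∧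
    ¬ H.Colorable k

/-- row D: the numbers -/
def RowD : Prop := ∀ g : ℕ, 3 ≤ g → ∃ C : ℕ, ∀ k : ℕ, 1 ≤ k → ∃ n L a t : ℕ,
  1 ≤ L ∧ 2 * n ≤ 2 ^ t ∧ 2 ≤ a ∧ 2 * L * t < a ∧
  4 * (∑ l ∈ Finset.Ico 3 g, n ^ l * L ^ (g - l)) < n * L ^ g ∧ 2 * k * a ≤ n ∧ n ≤ C * k ^ C

/-- row E: few large jumps -/
def RowE : Prop := ∀ (u : ℕ → ℕ) (C : ℕ), (∀ k, 1 ≤ k → 1 ≤ u k ∧ u k ≤ u (k + 1)) →
  (∀ k, 1 ≤ k → u (k + 1) ≤ C * k ^ C) → ∀ c : ℝ, 1 < c → ∃ A : ℝ, ∀ K : ℕ, 2 ≤ K →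
    (((Finset.Icc 1 K).filter (fun k => c * (u k : ℝ) < u (k + 1))).card : ℝ) ≤
      A * Real.log K

end Pool.Agent.GR11
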