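import Pool.Agent.GR11.Defs

/-! # Row B: the counting argument -/

namespace Pool.Agent.GR11

open Finset

/-- the graph of a labelling -/
def Gw {n L : ℕ} (ω : Sym2 (Fin n) → Fin (L + 1)) : SimpleGraph (Fin n) where
  Adj x y := x ≠ y ∧ ω s(x, y) = 0
  symm := by
    constructor
    intro x y h
    exact ⟨h.1.symm, by rw [Sym2.eq_swap]; exact h.2⟩
  loopless := by
    constructor
    intro x h
    exact h.1 rfl

theorem cntS {n L : ℕ} (T : Finset (Sym2 (Fin n))) (P : Finset (Fin (L + 1))) :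
    ((univ : Finset (Sym2 (Fin n) → Fin (L + 1))).filter (fun ω => ∀ t ∈ T, ω t ∈ P)).card *
      (L + 1) ^ T.card = P.card ^ T.card * (L + 1) ^ Fintype.card (Sym2 (Fin n)) := by
  classical
  have h1 : (univ : Finset (Sym2 (Fin n) → Fin (L + 1))).filter (fun ω => ∀ t ∈ T, ω t ∈ P) =
      Fintype.piFinset (fun t => if t ∈ T then P else univ) := by
    ext ω
    simp only [mem_filter, mem_univ, true_and, Fintype.mem_piFinset]
    constructor
    · intro h t
      by_cases ht : t ∈ T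
      · simpa [ht] using h t ht
      · simp [ht]
    · intro h t ht
      simpa [ht] using h t
  rw [h1, Fintype.card_piFinset]
  have h2 : ∀ t : Sym2 (Fin n), (if t ∈ T then P else univ).card =
      if t ∈ T then P.card else (L + 1) := by
    intro t
    split_ifs <;> simp
  rw [Finset.prod_congr rfl fun t _ => h2 t, Finset.prod_ite, Finset.prod_const,
    Finset.prod_const, Finset.filter_mem_eq_inter, Finset.univ_inter, mul_assoc, ← pow_add]
  congr 2
  have h3 : (univ.filter fun t : Sym2 (Fin n) => t ∉ T) = Tᶜ := by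
    ext t; simp
  rw [h3, Finset.card_compl]
  have h4 := Finset.card_le_univ T
  omega

/-- successor on a cycle of length `l` -/
def nx (l i : ℕ) : ℕ := if i + 1 < l then i + 1 else 0

theorem cyc_adj {V : Type*} {G : SimpleGraph V} {l : ℕ} {v : ℕ → V} (hl : 3 ≤ l)
    (h : Cyc G l v) (i : ℕ) (hi : i < l) : G.Adj (v i) (v (nx l i)) := by
  unfold nx
  split_ifs with h1
  · exact h.2.1 i h1
  · have : i = l - 1 := by omega
    rw [this]
    exact h.2.2

theorem card_edges {n l : ℕ} {v : ℕ → Fin n} (hl : 3 ≤ l)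
    (hv : ∀ i < l, ∀ j < l, v i = v j → i = j) :
    ((range l).image (fun i => s(v i, v (nx l i)))).card = l := by
  rw [Finset.card_image_of_injOn, card_range]
  intro i hi j hj hij
  rw [coe_range, Set.mem_Iio] at hi hj
  have hni : nx l i < l := by unfold nx; split_ifs <;> omega
  have hnj : nx l j < l := by unfold nx; split_ifs <;> omega
  simp only [Sym2.eq_iff] at hij
  rcases hij with ⟨h1, _⟩ | ⟨h1, h2⟩
  · exact hv i hi j hj h1
  · have e1 := hv i hi _ hnj h1
    have e2 := hv _ hni j hj h2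
    unfold nx at e1 e2
    split_ifs at e1 e2 <;> omega

theorem cyc_cnt {n L l : ℕ} (hl : 3 ≤ l) (v : ℕ → Fin n) : by
    classical exact
    ((univ : Finset (Sym2 (Fin n) → Fin (L + 1))).filter (fun ω => Cyc (Gw ω) l v)).card *
      (L + 1) ^ l ≤ (L + 1) ^ Fintype.card (Sym2 (Fin n)) := by
  classical
  by_cases hv : ∀ i < l, ∀ j < l, v i = v j → i = j
  · have h1 := cntS (L := L) ((range l).image (fun i => s(v i, v (nx l i)))) {0}
    rw [card_edges hl hv, card_singleton, one_pow, one_mul] at h1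
    refine le_trans (Nat.mul_le_mul_right _ (Finset.card_le_card ?_)) h1.le
    intro ω hω
    rw [mem_filter] at hω ⊢
    refine ⟨mem_univ _, fun t ht => ?_⟩
    obtain ⟨i, hi, rfl⟩ := mem_image.1 ht
    rw [mem_singleton]
    exact (cyc_adj hl hω.2 i (mem_range.1 hi)).2
  · have : (univ : Finset (Sym2 (Fin n) → Fin (L + 1))).filter (fun ω => Cyc (Gw ω) l v) = ∅ := by
      rw [Finset.filter_eq_empty_iff]
      intro ω _ h
      exact hv h.1
    convert Nat.zero_le _
    simp [this]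

theorem indep_cnt {n L : ℕ} (A : Finset (Fin n)) : by
    classical exact
    ((univ : Finset (Sym2 (Fin n) → Fin (L + 1))).filter
      (fun ω => ∀ x ∈ A, ∀ y ∈ A, ¬ (Gw ω).Adj x y)).card * (L + 1) ^ (A.card.choose 2) ≤
      L ^ (A.card.choose 2) * (L + 1) ^ Fintype.card (Sym2 (Fin n)) := by
  classical
  have h1 := cntS (L := L) (A.offDiag.image Sym2.mk.uncurry) ({0}ᶜ)
  rw [Sym2.card_image_offDiag, card_compl, Fintype.card_fin, card_singleton,
    Nat.add_sub_cancel] at h1
  refine le_trans (Nat.mul_le_mul_right _ (Finset.card_le_card ?_)) h1.le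
  intro ω hω
  rw [mem_filter] at hω ⊢
  refine ⟨mem_univ _, fun t ht => ?_⟩
  obtain ⟨p, hp, rfl⟩ := mem_image.1 ht
  rw [mem_offDiag] at hp
  rw [mem_compl, mem_singleton]
  intro h0
  exact hω.2 p.1 hp.1 p.2 hp.2.1 ⟨hp.2.2, h0⟩

theorem bern (L : ℕ) : 2 * L ^ (L + 1) ≤ (L + 1) ^ (L + 1) := by
  rcases Nat.eq_zero_or_pos L with rfl | hL
  · simp
  have hR : (0 : ℝ) < L := by exact_mod_cast hL
  have h1 : (1 : ℝ) + ((L + 1 : ℕ) : ℝ) * (1 / L) ≤ (1 + 1 / L) ^ (L + 1) :=
    one_add_mul_le_pow (by have : (0:ℝ) ≤ 1 / L := by positivity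
                           linarith) (L + 1)
  have h2 : (2 : ℝ) ≤ (1 + 1 / L) ^ (L + 1) := by
    refine le_trans ?_ h1
    have : (1 : ℝ) ≤ ((L + 1 : ℕ) : ℝ) * (1 / L) := by
      rw [mul_one_div, le_div_iff₀ hR]
      push_cast
      linarith
    linarith
  have h3 : (2 : ℝ) * L ^ (L + 1) ≤ (L + 1) ^ (L + 1) := by
    have h4 : ((L : ℝ) + 1) ^ (L + 1) = (1 + 1 / L) ^ (L + 1) * L ^ (L + 1) := by
      rw [← mul_pow]
      congr 1
      field_simp
    rw [h4]
    exact mul_le_mul_of_nonneg_right h2 (by positivity)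
  exact_mod_cast h3

theorem bad2_num {n L a t : ℕ} (h2 : 2 * n ≤ 2 ^ t) (ha : 2 ≤ a) (hL : 2 * (L + 1) * t < a) :
    4 * (n.choose a * L ^ (a.choose 2)) ≤ (L + 1) ^ (a.choose 2) := by
  have hC : (L + 1) * (a * t) ≤ a.choose 2 := by
    rw [Nat.choose_two_right, Nat.le_div_iff_mul_le (by norm_num)]
    have : 2 * (L + 1) * t ≤ a - 1 := by omega
    calc (L + 1) * (a * t) * 2 = a * (2 * (L + 1) * t) := by ring
      _ ≤ a * (a - 1) := Nat.mul_le_mul_left _ this
  obtain ⟨r, hr⟩ := Nat.exists_eq_add_of_le hC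
  have h4 : 4 * n.choose a ≤ 2 ^ (a * t) := by
    calc 4 * n.choose a ≤ 2 ^ a * n ^ a :=
          Nat.mul_le_mul (by calc 4 = 2 ^ 2 := by norm_num
                               _ ≤ 2 ^ a := Nat.pow_le_pow_right (by norm_num) ha)
            (Nat.choose_le_pow n a)
      _ = (2 * n) ^ a := by rw [mul_pow]
      _ ≤ (2 ^ t) ^ a := Nat.pow_le_pow_left h2 a
      _ = 2 ^ (a * t) := by rw [← pow_mul, mul_comm]
  calc 4 * (n.choose a * L ^ (a.choose 2)) = (4 * n.choose a) * L ^ (a.choose 2) := by ring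
    _ ≤ 2 ^ (a * t) * L ^ (a.choose 2) := Nat.mul_le_mul_right _ h4
    _ = (2 * L ^ (L + 1)) ^ (a * t) * L ^ r := by
        rw [hr, pow_add, pow_mul, mul_pow]; ring
    _ ≤ ((L + 1) ^ (L + 1)) ^ (a * t) * (L + 1) ^ r :=
        Nat.mul_le_mul (Nat.pow_le_pow_left (bern L) _) (Nat.pow_le_pow_left (by omega) _)
    _ = (L + 1) ^ (a.choose 2) := by rw [← pow_mul, ← pow_add, ← hr]

/-- extension of a finite sequence -/
def ext {n l : ℕ} (hl : 0 < l) (w : Fin l → Fin n) (i : ℕ) : Fin n :=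
  if h : i < l then w ⟨i, h⟩ else w ⟨0, hl⟩

open Classical in
/-- the number of labelled short cycles -/
noncomputable def X {n L : ℕ} (g : ℕ) (ω : Sym2 (Fin n) → Fin (L + 1)) : ℕ :=
  ∑ l ∈ Ico 3 g, if hl : 0 < l then
    ((univ : Finset (Fin l → Fin n)).filter (fun w => Cyc (Gw ω) l (ext hl w))).card else 0

theorem sum_X {n L g : ℕ} : (∑ ω : Sym2 (Fin n) → Fin (L + 1), X g ω) * (L + 1) ^ g ≤
    (∑ l ∈ Ico 3 g, n ^ l * (L + 1) ^ (g - l)) * (L + 1) ^ Fintype.card (Sym2 (Fin n)) := by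
  classical
  unfold X
  rw [Finset.sum_comm, Finset.sum_mul, Finset.sum_mul]
  refine Finset.sum_le_sum fun l hl => ?_
  rw [mem_Ico] at hl
  have hl0 : 0 < l := by omega
  simp only [hl0, dif_pos]
  have h1 : ∑ ω : Sym2 (Fin n) → Fin (L + 1),
      ((univ : Finset (Fin l → Fin n)).filter (fun w => Cyc (Gw ω) l (ext hl0 w))).card =
      ∑ w : Fin l → Fin n, ((univ : Finset (Sym2 (Fin n) → Fin (L + 1))).filter
        (fun ω => Cyc (Gw ω) l (ext hl0 w))).card := by
    simp only [Finset.card_filter]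
    rw [Finset.sum_comm]
  have hpow : (L + 1) ^ g = (L + 1) ^ l * (L + 1) ^ (g - l) := by
    rw [← pow_add]; congr 1; omega
  rw [h1, hpow, ← mul_assoc, Finset.sum_mul]
  calc (∑ w : Fin l → Fin n, ((univ : Finset (Sym2 (Fin n) → Fin (L + 1))).filter
        (fun ω => Cyc (Gw ω) l (ext hl0 w))).card * (L + 1) ^ l) * (L + 1) ^ (g - l)
      ≤ (∑ _w : Fin l → Fin n, (L + 1) ^ Fintype.card (Sym2 (Fin n))) * (L + 1) ^ (g - l) := by
        refine Nat.mul_le_mul_right _ (Finset.sum_le_sum fun w _ => ?_)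
        convert cyc_cnt (L := L) hl.1 (ext hl0 w)
    _ = n ^ l * (L + 1) ^ (g - l) * (L + 1) ^ Fintype.card (Sym2 (Fin n)) := by
        rw [Finset.sum_const, card_univ, Fintype.card_fun, Fintype.card_fin, Fintype.card_fin,
          smul_eq_mul]
        ring

theorem rowB : RowB := by
  classical
  intro n L' a t g hL1 h2 ha hLa hnum
  obtain ⟨L, rfl⟩ : ∃ L, L' = L + 1 := ⟨L' - 1, by omega⟩
  set N := Fintype.card (Sym2 (Fin n)) with hN
  have hn : 0 < n := by
    rcases Nat.eq_zero_or_pos n with rfl | h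
    · simp at hnum
    · exact h
  set B1 : Finset (Sym2 (Fin n) → Fin (L + 1)) := univ.filter (fun ω => n ≤ 2 * X g ω) with hB1
  set B2 : Finset (Sym2 (Fin n) → Fin (L + 1)) := univ.filter (fun ω =>
    ∃ A : Finset (Fin n), A.card = a ∧ ∀ x ∈ A, ∀ y ∈ A, ¬ (Gw ω).Adj x y) with hB2
  have htot : Fintype.card (Sym2 (Fin n) → Fin (L + 1)) = (L + 1) ^ N := by
    rw [Fintype.card_fun, Fintype.card_fin]
  have hpos : 0 < (L + 1) ^ g := by positivity
  have hposN : 0 < (L + 1) ^ N := by positivity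
  have hsum : 4 * (∑ ω : Sym2 (Fin n) → Fin (L + 1), X g ω) < n * (L + 1) ^ N := by
    have h5 := sum_X (n := n) (L := L) (g := g)
    have h6 : 4 * (∑ ω : Sym2 (Fin n) → Fin (L + 1), X g ω) * (L + 1) ^ g <
        n * (L + 1) ^ N * (L + 1) ^ g := by
      calc 4 * (∑ ω : Sym2 (Fin n) → Fin (L + 1), X g ω) * (L + 1) ^ g
          = 4 * ((∑ ω : Sym2 (Fin n) → Fin (L + 1), X g ω) * (L + 1) ^ g) := by ring
        _ ≤ 4 * ((∑ l ∈ Ico 3 g, n ^ l * (L + 1) ^ (g - l)) * (L + 1) ^ N) :=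
            Nat.mul_le_mul_left _ h5
        _ = 4 * (∑ l ∈ Ico 3 g, n ^ l * (L + 1) ^ (g - l)) * (L + 1) ^ N := by ring
        _ < n * (L + 1) ^ g * (L + 1) ^ N := Nat.mul_lt_mul_of_pos_right hnum hposN
        _ = n * (L + 1) ^ N * (L + 1) ^ g := by ring
    exact lt_of_mul_lt_mul_right h6 (Nat.zero_le _)
  have hb1 : 2 * B1.card < (L + 1) ^ N := by
    have h7 : B1.card * n ≤ ∑ ω ∈ B1, 2 * X g ω := by
      rw [← smul_eq_mul]
      refine Finset.card_nsmul_le_sum _ _ _ fun ω hω => ?_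
      rw [hB1, mem_filter] at hω
      exact hω.2
    have h8 : ∑ ω ∈ B1, 2 * X g ω ≤ 2 * ∑ ω : Sym2 (Fin n) → Fin (L + 1), X g ω := by
      rw [Finset.mul_sum (s := univ)]
      exact Finset.sum_le_sum_of_subset (Finset.subset_univ _)
    have h9 : 2 * B1.card * n < (L + 1) ^ N * n := by
      calc 2 * B1.card * n = 2 * (B1.card * n) := by ring
        _ ≤ 2 * (2 * ∑ ω : Sym2 (Fin n) → Fin (L + 1), X g ω) :=
            Nat.mul_le_mul_left _ (h7.trans h8)
        _ = 4 * ∑ ω : Sym2 (Fin n) → Fin (L + 1), X g ω := by ring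
        _ < n * (L + 1) ^ N := hsum
        _ = (L + 1) ^ N * n := by ring
    exact lt_of_mul_lt_mul_right h9 (Nat.zero_le _)
  have hb2 : 4 * B2.card ≤ (L + 1) ^ N := by
    have h7 : B2.card ≤ ∑ A ∈ (univ : Finset (Fin n)).powersetCard a,
        ((univ : Finset (Sym2 (Fin n) → Fin (L + 1))).filter
          (fun ω => ∀ x ∈ A, ∀ y ∈ A, ¬ (Gw ω).Adj x y)).card := by
      refine (Finset.card_le_card ?_).trans Finset.card_biUnion_le
      intro ω hω
      rw [hB2, mem_filter] at hω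
      obtain ⟨A, hA, h⟩ := hω.2
      rw [mem_biUnion]
      exact ⟨A, mem_powersetCard.2 ⟨Finset.subset_univ _, hA⟩, mem_filter.2 ⟨mem_univ _, h⟩⟩
    have hposC : 0 < (L + 1) ^ (a.choose 2) := by positivity
    have h8 : B2.card * (L + 1) ^ (a.choose 2) ≤ n.choose a * L ^ (a.choose 2) * (L + 1) ^ N := by
      refine (Nat.mul_le_mul_right _ h7).trans ?_
      rw [Finset.sum_mul]
      calc ∑ A ∈ (univ : Finset (Fin n)).powersetCard a,
            ((univ : Finset (Sym2 (Fin n) → Fin (L + 1))).filter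
              (fun ω => ∀ x ∈ A, ∀ y ∈ A, ¬ (Gw ω).Adj x y)).card * (L + 1) ^ (a.choose 2)
          ≤ ∑ _A ∈ (univ : Finset (Fin n)).powersetCard a,
              L ^ (a.choose 2) * (L + 1) ^ N := by
            refine Finset.sum_le_sum fun A hA => ?_
            have h9 := indep_cnt (L := L) A
            rw [(mem_powersetCard.1 hA).2] at h9
            convert h9
        _ = n.choose a * L ^ (a.choose 2) * (L + 1) ^ N := by
            rw [Finset.sum_const, card_powersetCard, card_univ, Fintype.card_fin, smul_eq_mul]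
            ring
    have h10 : 4 * B2.card * (L + 1) ^ (a.choose 2) ≤ (L + 1) ^ N * (L + 1) ^ (a.choose 2) := by
      calc 4 * B2.card * (L + 1) ^ (a.choose 2) = 4 * (B2.card * (L + 1) ^ (a.choose 2)) := by ring
        _ ≤ 4 * (n.choose a * L ^ (a.choose 2) * (L + 1) ^ N) := Nat.mul_le_mul_left _ h8
        _ = 4 * (n.choose a * L ^ (a.choose 2)) * (L + 1) ^ N := by ring
        _ ≤ (L + 1) ^ (a.choose 2) * (L + 1) ^ N := Nat.mul_le_mul_right _ (bad2_num h2 ha hLa)
        _ = (L + 1) ^ N * (L + 1) ^ (a.choose 2) := by ring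
    exact le_of_mul_le_mul_right h10 hposC
  obtain ⟨ω, hω1, hω2⟩ : ∃ ω, ω ∉ B1 ∧ ω ∉ B2 := by
    by_contra hcon
    have hcov : (univ : Finset (Sym2 (Fin n) → Fin (L + 1))) ⊆ B1 ∪ B2 := by
      intro ω _
      rw [mem_union]
      by_contra h
      rw [not_or] at h
      exact hcon ⟨ω, h.1, h.2⟩
    have h11 := (Finset.card_le_card hcov).trans (Finset.card_union_le _ _)
    rw [card_univ, htot] at h11
    omega
  rw [hB1, mem_filter, not_and, not_le] at hω1
  rw [hB2, mem_filter, not_and] at hω2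
  have hX := hω1 (mem_univ _)
  have hI := hω2 (mem_univ _)
  refine ⟨Gw ω, (Ico 3 g).biUnion (fun l => if hl : 0 < l then
    ((univ : Finset (Fin l → Fin n)).filter (fun w => Cyc (Gw ω) l (ext hl w))).image
      (fun w => ext hl w 0) else ∅), ?_, ?_, ?_⟩
  · refine lt_of_le_of_lt (Nat.mul_le_mul_left 2 (Finset.card_biUnion_le.trans ?_)) hX
    unfold X
    refine Finset.sum_le_sum fun l _ => ?_
    split_ifs with hl
    · exact Finset.card_image_le
    · simp
  · intro A hA
    by_contra hno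
    push Not at hno
    exact hI ⟨A, hA, hno⟩
  · intro l h3 hlg v hv
    rw [mem_biUnion]
    refine ⟨l, mem_Ico.2 ⟨h3, hlg⟩, ?_⟩
    have hl : 0 < l := by omega
    rw [dif_pos hl, mem_image]
    have hext : ∀ i < l, ext hl (fun j : Fin l => v j) i = v i := by
      intro i hi
      unfold ext
      rw [dif_pos hi]
    refine ⟨fun j => v j, mem_filter.2 ⟨mem_univ _, ?_, ?_, ?_⟩, hext 0 hl⟩
    · intro i hi j hj hij
      rw [hext i hi, hext j hj] at hij
      exact hv.1 i hi j hj hij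
    · intro i hi
      rw [hext i (by omega), hext (i + 1) hi]
      exact hv.2.1 i hi
    · rw [hext (l - 1) (by omega), hext 0 hl]
      exact hv.2.2

end Pool.Agent.GR11
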