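import Pool.Agent.GR11.Defs

namespace Pool.Agent.GR11
open SimpleGraph

theorem egirth_of_hom33 {V W : Type*} {G : SimpleGraph V} {H : SimpleGraph W} (f : H →g G)
    (hf : Function.Injective f) {g : ℕ∞} (h : g ≤ G.egirth) : g ≤ H.egirth := by
  rw [le_egirth] at h ⊢
  intro a w hw
  have h2 := h (f a) (w.map f) ((Walk.isCycle_map_iff_of_injective hf).2 hw)
  simpa using h2

theorem minimal33 {V : Type} [Fintype V] (G : SimpleGraph V) (k : ℕ) (hk : ¬ G.Colorable k) :
    ∃ s : Finset V, ¬ (G.induce (s : Set V)).Colorable k ∧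
      (G.induce (s : Set V)).Colorable (k + 1) := by
  classical
  have h0 : ∃ n, ∃ s : Finset V, s.card = n ∧ ¬ (G.induce (s : Set V)).Colorable k := by
    refine ⟨_, Finset.univ, rfl, fun h => hk ?_⟩
    obtain ⟨c⟩ := h
    exact ⟨Coloring.mk (fun x => c ⟨x, by simp⟩) (fun {a b} hab => c.valid (by simpa using hab))⟩
  obtain ⟨s, hs, hc⟩ := Nat.find_spec h0
  refine ⟨s, hc, ?_⟩
  rcases s.eq_empty_or_nonempty with he | ⟨v, hv⟩
  · exfalso
    apply hc
    subst he
    exact ⟨Coloring.mk (fun x => absurd x.2 (by simp)) (fun {a} => absurd a.2 (by simp))⟩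
  · have h1 : (G.induce ((s.erase v : Finset V) : Set V)).Colorable k := by
      by_contra h
      have h2 := Nat.find_min h0 (m := (s.erase v).card) (by
        rw [← hs]; exact Finset.card_erase_lt_of_mem hv)
      exact h2 ⟨_, rfl, h⟩
    obtain ⟨c⟩ := h1
    refine ⟨Coloring.mk (fun x => if h : (x : V) = v then Fin.last k else
      Fin.castSucc (c ⟨x, by
        simp [h]⟩)) ?_⟩
    intro a b hab
    have hab' : G.Adj a b := by simpa using hab
    by_cases ha : (a : V) = v
    · by_cases hb : (b : V) = v
      · exact absurd (ha.trans hb.symm) hab'.ne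
      · simp only [ha, hb, dite_true, dite_false]
        exact (Fin.castSucc_lt_last _).ne'
    · by_cases hb : (b : V) = v
      · simp only [ha, hb, dite_true, dite_false]
        exact (Fin.castSucc_lt_last _).ne
      · simp only [ha, hb, dite_false]
        intro h
        exact c.valid (by simpa using hab') (Fin.castSucc_injective _ h)

theorem rowC1 : RowC1 := by
  classical
  intro V _ G g k hg hk
  obtain ⟨s, h1, h2⟩ := minimal33 G k hk
  have key : ∃ n ≤ Fintype.card V, ∃ H : SimpleGraph (Fin n),
      H.chromaticNumber = ((k + 1 : ℕ) : ℕ∞) ∧ (g : ℕ∞) ≤ H.egirth := by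
    refine ⟨s.card, s.card_le_univ, (G.induce (s : Set V)).comap (s.equivFin.symm), ?_, ?_⟩
    · have e : (G.induce (s : Set V)).comap (s.equivFin.symm) ≃g G.induce (s : Set V) :=
        Iso.comap s.equivFin.symm _
      have c1 : ((G.induce (s : Set V)).comap (s.equivFin.symm)).Colorable (k + 1) :=
        h2.of_hom e.toHom
      have c2 : ¬ ((G.induce (s : Set V)).comap (s.equivFin.symm)).Colorable k :=
        fun h => h1 (h.of_hom e.symm.toHom)
      apply le_antisymm
      · exact c1.chromaticNumber_le
      · rw [Nat.cast_add, Nat.cast_one]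
        apply Order.add_one_le_of_lt
        by_contra h
        exact c2 (chromaticNumber_le_iff_colorable.1 (not_lt.1 h))
    · refine egirth_of_hom33 (G := G)
        ⟨fun x => ((s.equivFin.symm x : s) : V), fun {a b} h => by simpa using h⟩ ?_ hg
      intro a b h
      exact s.equivFin.symm.injective (Subtype.ext h)
  obtain ⟨n, hn, H, hH⟩ := key
  have h3 : ng g (k + 1) ≤ n := by
    unfold ng
    apply Nat.sInf_le
    exact ⟨H, hH⟩
  exact ⟨h3.trans hn, n, hn, H, hH⟩

end Pool.Agent.GR11
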