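import Pool.Agent.GR11.Defs

/-! # Row C2: deletion of the short cycles -/

namespace Pool.Agent.GR11

theorem rowC2 (hA : RowA) : RowC2 := by
  intro n a g k G S h1 h2 h3 h4
  classical
  refine ⟨{x : Fin n // x ∉ S}, inferInstance, G.comap Subtype.val, ?_, ?_, ?_⟩
  · rw [Fintype.card_subtype_compl, Fintype.card_fin]
    exact Nat.sub_le _ _
  · refine hA _ _ g ?_
    intro l hl3 hlg v hv
    have hc : Cyc G l (fun i => (v i).1) := by
      refine ⟨?_, ?_, ?_⟩
      · intro i hi j hj hij
        exact hv.1 i hi j hj (Subtype.ext hij)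
      · intro i hi
        exact hv.2.1 i hi
      · exact hv.2.2
    exact (v 0).2 (h3 l hl3 hlg _ hc)
  · rintro ⟨C⟩
    have hcard : Fintype.card {x : Fin n // x ∉ S} = n - S.card := by
      rw [Fintype.card_subtype_compl, Fintype.card_fin]
      simp
    have hlt : (Finset.univ : Finset (Fin k)).card * a
        < (Finset.univ : Finset {x : Fin n // x ∉ S}).card := by
      rw [Finset.card_univ, Finset.card_univ, Fintype.card_fin, hcard]
      have : 2 * (k * a) ≤ n := by rw [← mul_assoc]; exact h4
      omega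
    obtain ⟨y, -, hy⟩ := Finset.exists_lt_card_fiber_of_mul_lt_card_of_maps_to
      (f := fun x => (C x : Fin k)) (fun x _ => Finset.mem_univ _) hlt
    obtain ⟨B, hB, hBc⟩ := Finset.exists_subset_card_eq hy.le
    obtain ⟨p, hp, q, hq, hpq⟩ := h2 (B.map (Function.Embedding.subtype _))
      (by rw [Finset.card_map]; exact hBc)
    rw [Finset.mem_map] at hp hq
    obtain ⟨p', hp', rfl⟩ := hp
    obtain ⟨q', hq', rfl⟩ := hq
    have e1 := (Finset.mem_filter.1 (hB hp')).2
    have e2 := (Finset.mem_filter.1 (hB hq')).2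
    have hadj : (G.comap (Subtype.val : {x : Fin n // x ∉ S} → Fin n)).Adj p' q' := hpq
    exact C.valid hadj (e1.trans e2.symm)

end Pool.Agent.GR11
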