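import Pool.Agent.GR11.Defs

set_option autoImplicit false

namespace Pool.Agent.GR11.D42

open Filter Topology

theorem expo (g : ℕ) (hg : 3 ≤ g) : ∃ C : ℕ, 1 ≤ C ∧ ∀ x : ℕ, C ≤ x →
    8 * g * (6 * x ^ 2) ^ (g + 1) ≤ 2 ^ x := by
  have h := tendsto_pow_const_div_const_pow_of_one_lt (2 * (g + 1)) (r := (2 : ℝ)) (by norm_num)
  have hc : (0 : ℝ) < 1 / (8 * g * 6 ^ (g + 1)) := by
    have : (0 : ℝ) < g := by exact_mod_cast (by omega : 0 < g)
    positivity
  have h2 := h.eventually (gt_mem_nhds hc)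
  obtain ⟨C, hC⟩ := eventually_atTop.1 h2
  refine ⟨max C 1, le_max_right _ _, fun x hx => ?_⟩
  have h3 := hC x (le_trans (le_max_left _ _) hx)
  have hg0 : (0 : ℝ) < g := by exact_mod_cast (by omega : 0 < g)
  have h4 : (x : ℝ) ^ (2 * (g + 1)) * (8 * g * 6 ^ (g + 1)) < 2 ^ x := by
    rw [div_lt_div_iff₀ (by positivity) (by positivity)] at h3
    linarith
  have h5 : ((8 * g * (6 * x ^ 2) ^ (g + 1) : ℕ) : ℝ) ≤ ((2 ^ x : ℕ) : ℝ) := by
    push_cast
    rw [mul_pow, ← pow_mul]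
    nlinarith [h4]
  exact_mod_cast h5

theorem rowD : RowD := by
  intro g hg
  obtain ⟨C, hC1, hC⟩ := expo g hg
  refine ⟨max (4 * g * (6 * C) ^ (g + 1)) (2 * (g + 1)), fun k hk => ?_⟩
  set t := C * k with ht
  have ht1 : 1 ≤ t := Nat.one_le_iff_ne_zero.2 (by positivity)
  set D := 6 * k * t with hD
  have hD2 : 2 ≤ D := by
    have : 1 ≤ k * t := Nat.one_le_iff_ne_zero.2 (by positivity)
    rw [hD, mul_assoc]; omega
  set L := 4 * g * D ^ g with hL
  have hL1 : 1 ≤ L := Nat.one_le_iff_ne_zero.2 (by positivity)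
  have hn : D * L = 4 * g * D ^ (g + 1) := by rw [hL, pow_succ]; ring
  refine ⟨D * L, L, 2 * L * t + 1, t, hL1, ?_, ?_, Nat.lt_succ_self _, ?_, ?_, ?_⟩
  · have h1 := hC t (by rw [ht]; exact Nat.le_mul_of_pos_right _ (by omega))
    have h2 : D ≤ 6 * t ^ 2 := by
      have hkt : k ≤ t := by rw [ht]; exact Nat.le_mul_of_pos_left _ (by omega)
      rw [hD]
      nlinarith [Nat.mul_le_mul_right t hkt]
    calc 2 * (D * L) = 8 * g * D ^ (g + 1) := by rw [hn]; ring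
      _ ≤ 8 * g * (6 * t ^ 2) ^ (g + 1) := Nat.mul_le_mul_left _ (Nat.pow_le_pow_left h2 _)
      _ ≤ 2 ^ t := h1
  · have : 1 ≤ L * t := Nat.one_le_iff_ne_zero.2 (by positivity)
    rw [mul_assoc]; omega
  · have h1 : ∀ l ∈ Finset.Ico 3 g, (D * L) ^ l * L ^ (g - l) ≤ D ^ (g - 1) * L ^ g := by
      intro l hl
      rw [Finset.mem_Ico] at hl
      have e : (D * L) ^ l * L ^ (g - l) = D ^ l * L ^ g := by
        rw [mul_pow, mul_assoc, ← pow_add]
        congr 2; omega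
      rw [e]
      exact Nat.mul_le_mul_right _ (Nat.pow_le_pow_right (by omega) (by omega))
    have h2 := Finset.sum_le_card_nsmul _ _ _ h1
    rw [Nat.card_Ico, smul_eq_mul] at h2
    have h3 : (g - 3) * (D ^ (g - 1) * L ^ g) ≤ g * (D ^ (g - 1) * L ^ g) :=
      Nat.mul_le_mul_right _ (by omega)
    have h4 : D ^ (g - 1) < D ^ (g + 1) := Nat.pow_lt_pow_right (by omega) (by omega)
    calc 4 * ∑ l ∈ Finset.Ico 3 g, (D * L) ^ l * L ^ (g - l)
        ≤ 4 * (g * (D ^ (g - 1) * L ^ g)) := Nat.mul_le_mul_left _ (h2.trans h3)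
      _ = 4 * g * L ^ g * D ^ (g - 1) := by ring
      _ < 4 * g * L ^ g * D ^ (g + 1) := Nat.mul_lt_mul_of_pos_left h4 (by positivity)
      _ = D * L * L ^ g := by rw [hn]; ring
  · have h1 : 2 * k * (2 * L * t + 1) ≤ 6 * k * t * L := by
      have : 1 ≤ L * t := Nat.one_le_iff_ne_zero.2 (by positivity)
      nlinarith
    exact h1
  · have h1 : D * L = 4 * g * (6 * C) ^ (g + 1) * k ^ (2 * (g + 1)) := by
      rw [hn, hD, ht]
      have : 6 * k * (C * k) = 6 * C * k ^ 2 := by ring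
      rw [this, mul_pow, ← pow_mul]; ring
    rw [h1]
    exact Nat.mul_le_mul (le_max_left _ _) (Nat.pow_le_pow_right hk (le_max_right _ _))

end Pool.Agent.GR11.D42
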