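import Pool.Agent.GR11.Defs

set_option autoImplicit false

namespace Pool.Agent.GR11.E42

open Finset

theorem jump (u : ℕ → ℕ) (c : ℝ) (hc : 1 < c) (hu : ∀ k, 1 ≤ k → 1 ≤ u k ∧ u k ≤ u (k + 1)) (K : ℕ) :
    c ^ (((Finset.Icc 1 K).filter (fun k => c * (u k : ℝ) < u (k + 1))).card) * (u 1 : ℝ) ≤
      (u (K + 1) : ℝ) := by
  induction K with
  | zero => simp
  | succ K ih =>
    rw [← Finset.insert_Icc_right_eq_Icc_add_one (by omega), Finset.filter_insert]
    split_ifs with h
    · rw [Finset.card_insert_of_notMem (by simp), pow_succ]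
      calc c ^ _ * c * (u 1 : ℝ) = c * (c ^ _ * (u 1 : ℝ)) := by ring
        _ ≤ c * (u (K + 1) : ℝ) := mul_le_mul_of_nonneg_left ih (by linarith)
        _ ≤ _ := h.le
    · exact ih.trans (by exact_mod_cast (hu (K + 1) (by omega)).2)

theorem rowE : RowE := by
  intro u C hu hC c hc
  have hlc : 0 < Real.log c := Real.log_pos hc
  refine ⟨(Real.log C / Real.log 2 + C) / Real.log c, fun K hK => ?_⟩
  have h1 := jump u c hc hu K
  have h2 := hC K (by omega)
  have h3 : (1 : ℝ) ≤ u 1 := by exact_mod_cast (hu 1 le_rfl).1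
  have h4 := (hu (K + 1) (by omega)).1
  have hC1 : 1 ≤ C := by
    rcases Nat.eq_zero_or_pos C with h | h
    · subst h; simp at h2; omega
    · exact h
  set N := ((Finset.Icc 1 K).filter (fun k => c * (u k : ℝ) < u (k + 1))).card with hN
  have hK0 : (0 : ℝ) < K := by exact_mod_cast (by omega : 0 < K)
  have hC0 : (0 : ℝ) < C := by exact_mod_cast hC1
  have h5 : c ^ N ≤ (C : ℝ) * (K : ℝ) ^ C := by
    calc c ^ N = c ^ N * 1 := by ring
      _ ≤ c ^ N * (u 1 : ℝ) := mul_le_mul_of_nonneg_left h3 (by positivity)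
      _ ≤ (u (K + 1) : ℝ) := h1
      _ ≤ _ := by exact_mod_cast h2
  have h6 := Real.log_le_log (by positivity) h5
  rw [Real.log_pow, Real.log_mul hC0.ne' (by positivity), Real.log_pow] at h6
  have hl2 : 0 < Real.log 2 := Real.log_pos (by norm_num)
  have hl : Real.log 2 ≤ Real.log K := Real.log_le_log (by norm_num) (by exact_mod_cast hK)
  have h7 : Real.log C ≤ Real.log C / Real.log 2 * Real.log K := by
    have h8 : 0 ≤ Real.log C := Real.log_nonneg (by exact_mod_cast hC1)
    calc Real.log C = Real.log C / Real.log 2 * Real.log 2 := by field_simp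
      _ ≤ _ := mul_le_mul_of_nonneg_left hl (by positivity)
  rw [div_mul_eq_mul_div, le_div_iff₀ hlc]
  nlinarith

end Pool.Agent.GR11.E42
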