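import Pool.Agent.GR11.RowA_h14
import Pool.Agent.GR11.RowB11
import Pool.Agent.GR11.RowC1_helper33
import Pool.Agent.GR11.RowC2_73
import Pool.Agent.GR11.RowD_h42
import Pool.Agent.GR11.RowE_h42

/-! # Composition -/

namespace Pool.Agent.GR11

theorem not_colorable_of_chrom {V : Type} {G : SimpleGraph V} {k j : ℕ}
    (h : G.chromaticNumber = (k : ℕ∞)) (hj : j < k) : ¬ G.Colorable j := by
  intro hc
  have := hc.chromaticNumber_le
  rw [h] at this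
  exact absurd (by exact_mod_cast this) (not_le.2 hj)

theorem bound (g : ℕ) (hg : 3 ≤ g) : ∃ C : ℕ, ∀ k, 1 ≤ k →
    ng g (k + 1) ≤ C * k ^ C ∧ ∃ n, ∃ H : SimpleGraph (Fin n),
      H.chromaticNumber = ((k + 1 : ℕ) : ℕ∞) ∧ (g : ℕ∞) ≤ H.egirth := by
  obtain ⟨C, hC⟩ := D42.rowD g hg
  refine ⟨C, fun k hk => ?_⟩
  obtain ⟨n, L, a, t, h1, h2, h3, h4, h5, h6, h7⟩ := hC k hk
  obtain ⟨G, S, g1, g2, g3⟩ := rowB n L a t g h1 h2 h3 h4 h5
  obtain ⟨V, _, H, e1, e2, e3⟩ := rowC2 A14.rowA n a g k G S g1 g2 g3 h6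
  obtain ⟨f1, m, _, H', f3, f4⟩ := rowC1 V H g k e2 e3
  exact ⟨f1.trans (e1.trans h7), m, H', f3, f4⟩

theorem attained (g : ℕ) (hg : 3 ≤ g) (k : ℕ) (hk : 2 ≤ k) :
    ∃ G : SimpleGraph (Fin (ng g k)), G.chromaticNumber = (k : ℕ∞) ∧ (g : ℕ∞) ≤ G.egirth := by
  obtain ⟨C, hC⟩ := bound g hg
  obtain ⟨_, n, H, h1, h2⟩ := hC (k - 1) (by omega)
  rw [Nat.sub_add_cancel (by omega)] at h1
  exact Nat.sInf_mem (s := {n : ℕ | ∃ G : SimpleGraph (Fin n), G.chromaticNumber = (k : ℕ∞) ∧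
    (g : ℕ∞) ≤ G.egirth}) ⟨n, H, h1, h2⟩

theorem mono (g : ℕ) (hg : 3 ≤ g) (k : ℕ) (hk : 1 ≤ k) :
    ng g k ≤ ng g (k + 1) := by
  obtain ⟨G, h1, h2⟩ := attained g hg (k + 1) (by omega)
  have h3 : ¬ G.Colorable (k - 1) := not_colorable_of_chrom h1 (by omega)
  have h4 := (rowC1 (Fin (ng g (k + 1))) G g (k - 1) h2 h3).1
  rw [Nat.sub_add_cancel hk, Fintype.card_fin] at h4
  exact h4

theorem egirth_bot1 (g : ℕ) : (g : ℕ∞) ≤ (⊥ : SimpleGraph (Fin 1)).egirth := by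
  rw [SimpleGraph.egirth_bot]
  exact le_top

theorem pos (g : ℕ) (hg : 3 ≤ g) (k : ℕ) (hk : 1 ≤ k) :
    1 ≤ ng g k := by
  have key : ∃ G : SimpleGraph (Fin (ng g k)), G.chromaticNumber = (k : ℕ∞) := by
    rcases Nat.lt_or_ge 1 k with h | h
    · obtain ⟨G, h1, _⟩ := attained g hg k h
      exact ⟨G, h1⟩
    · have hk1 : k = 1 := by omega
      subst hk1
      have hne : (1 : ℕ) ∈ {n : ℕ | ∃ G : SimpleGraph (Fin n),
          G.chromaticNumber = ((1 : ℕ) : ℕ∞) ∧ (g : ℕ∞) ≤ G.egirth} := by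
        refine ⟨⊥, ?_, egirth_bot1 g⟩
        rw [SimpleGraph.chromaticNumber_bot]
        rfl
      obtain ⟨G, h1, _⟩ := Nat.sInf_mem ⟨1, hne⟩
      exact ⟨G, h1⟩
  obtain ⟨G, hG⟩ := key
  by_contra h0
  have h0' : ng g k = 0 := by omega
  have : IsEmpty (Fin (ng g k)) := by rw [h0']; infer_instance
  have h2 : G.Colorable 0 := SimpleGraph.Colorable.of_isEmpty 0
  exact not_colorable_of_chrom hG (by omega) h2

theorem rowE' (u : ℕ → ℕ) (C : ℕ) (hu : ∀ k, 1 ≤ k → 1 ≤ u k ∧ u k ≤ u (k + 1))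
    (hC : ∀ k, 1 ≤ k → u (k + 1) ≤ C * k ^ C) : ∃ A : ℝ, ∀ c : ℝ, 1 < c → ∀ K : ℕ, 2 ≤ K →
    (((Finset.Icc 1 K).filter (fun k => c * (u k : ℝ) < u (k + 1))).card : ℝ) ≤
      A * Real.log K / Real.log c := by
  refine ⟨Real.log C / Real.log 2 + C, fun c hc K hK => ?_⟩
  have hlc : 0 < Real.log c := Real.log_pos hc
  have h1 := E42.jump u c hc hu K
  have h2 := hC K (by omega)
  have h3 : (1 : ℝ) ≤ u 1 := by exact_mod_cast (hu 1 le_rfl).1
  have h4 := (hu (K + 1) (by omega)).1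
  have hC1 : 1 ≤ C := by
    rcases Nat.eq_zero_or_pos C with h | h
    · subst h; simp at h2; omega
    · exact h
  set N := ((Finset.Icc 1 K).filter (fun k => c * (u k : ℝ) < u (k + 1))).card with hN
  have hK0 : (0 : ℝ) < K := by exact_mod_cast (by omega : 0 < K)
  have hC0 : (0 : ℝ) < C := by exact_mod_cast hC1
  have h5 : c ^ N ≤ (C : ℝ) * (K : ℝ) ^ C := by
    calc c ^ N = c ^ N * 1 := by ring
      _ ≤ c ^ N * (u 1 : ℝ) := mul_le_mul_of_nonneg_left h3 (by positivity)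
      _ ≤ (u (K + 1) : ℝ) := h1
      _ ≤ _ := by exact_mod_cast h2
  have h6 := Real.log_le_log (by positivity) h5
  rw [Real.log_pow, Real.log_mul hC0.ne' (by positivity), Real.log_pow] at h6
  have hl2 : 0 < Real.log 2 := Real.log_pos (by norm_num)
  have hl : Real.log 2 ≤ Real.log K := Real.log_le_log (by norm_num) (by exact_mod_cast hK)
  have h7 : Real.log C ≤ Real.log C / Real.log 2 * Real.log K := by
    have h8 : 0 ≤ Real.log C := Real.log_nonneg (by exact_mod_cast hC1)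
    calc Real.log C = Real.log C / Real.log 2 * Real.log 2 := by field_simp
      _ ≤ _ := mul_le_mul_of_nonneg_left hl (by positivity)
  rw [le_div_iff₀ hlc]
  nlinarith

theorem main (g : ℕ) (hg : 3 ≤ g) :
    (∀ k : ℕ, 2 ≤ k → ∃ G : SimpleGraph (Fin (ng g k)),
      G.chromaticNumber = (k : ℕ∞) ∧ (g : ℕ∞) ≤ G.egirth) ∧
    ∃ A : ℝ, ∀ c : ℝ, 1 < c → ∀ K : ℕ, 2 ≤ K →
      (((Finset.Icc 2 K).filter (fun k => c * (ng g k : ℝ) < ng g (k + 1))).card : ℝ) ≤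
        A * Real.log K / Real.log c := by
  refine ⟨attained g hg, ?_⟩
  obtain ⟨C, hC⟩ := bound g hg
  obtain ⟨A, hAA⟩ := rowE' (ng g) C (fun k hk => ⟨pos g hg k hk, mono g hg k hk⟩)
    (fun k hk => (hC k hk).1)
  refine ⟨A, fun c hc K hK => le_trans ?_ (hAA c hc K hK)⟩
  have h1 : (Finset.Icc 2 K).filter (fun k => c * (ng g k : ℝ) < ng g (k + 1)) ⊆
      (Finset.Icc 1 K).filter (fun k => c * (ng g k : ℝ) < ng g (k + 1)) :=
    Finset.filter_subset_filter _ (Finset.Icc_subset_Icc (by norm_num) le_rfl)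
  exact_mod_cast Finset.card_le_card h1

end Pool.Agent.GR11
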