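import Pool.Agent.GR11.Defs

/-! # Row A: from vertex cycles to the girth -/

namespace Pool.Agent.GR11.A14

theorem rowA : RowA := by
  intro V G g h
  rw [SimpleGraph.le_egirth]
  intro a w hw
  by_contra hlt
  push Not at hlt
  have hl : w.length < g := by exact_mod_cast hlt
  have h3 : 3 ≤ w.length := hw.three_le_length
  refine h w.length h3 hl w.getVert ⟨?_, ?_, ?_⟩
  · intro i hi j hj hij
    refine hw.getVert_injOn' ?_ ?_ hij
    · show i ≤ w.length - 1
      omega
    · show j ≤ w.length - 1
      omega
  · intro i hi
    exact w.adj_getVert_succ (by omega)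
  · have h1 := w.adj_getVert_succ (i := w.length - 1) (by omega)
    have h2 : w.length - 1 + 1 = w.length := by omega
    rw [h2, SimpleGraph.Walk.getVert_length] at h1
    rw [SimpleGraph.Walk.getVert_zero]
    exact h1

end Pool.Agent.GR11.A14
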