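import Pool.Agent.GR11.Defs

/-! # Row B: the counting argument of Erdos, deletion method -/

namespace Pool.Agent.GR11.B92

open Finset

/-- the graph of `w` -/
def gr {n M : ℕ} (w : Sym2 (Fin n) → Fin (M + 1)) : SimpleGraph (Fin n) :=
  SimpleGraph.fromRel (fun x y => w s(x, y) = 0)

theorem gr_adj {n M : ℕ} (w : Sym2 (Fin n) → Fin (M + 1)) (x y : Fin n) :
    (gr w).Adj x y ↔ x ≠ y ∧ w s(x, y) = 0 := by
  rw [gr, SimpleGraph.fromRel_adj]
  have h : s(y, x) = s(x, y) := Sym2.eq_swap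
  rw [h, or_self]

theorem cnt {ι : Type} [Fintype ι] [DecidableEq ι] (M : ℕ) (T : Finset (Fin (M + 1)))
    (E : Finset ι) :
    (univ.filter (fun w : ι → Fin (M + 1) => ∀ e ∈ E, w e ∈ T)).card * (M + 1) ^ E.card =
      T.card ^ E.card * (M + 1) ^ Fintype.card ι := by
  have h : univ.filter (fun w : ι → Fin (M + 1) => ∀ e ∈ E, w e ∈ T) =
      Fintype.piFinset (fun e => if e ∈ E then T else univ) := by
    ext w
    simp only [mem_filter, mem_univ, true_and, Fintype.mem_piFinset]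
    constructor
    · intro h e
      by_cases he : e ∈ E
      · simp [he, h e he]
      · simp [he]
    · intro h e he
      have := h e
      simpa [he] using this
  rw [h, Fintype.card_piFinset]
  have h1 : ∏ e : ι, (if e ∈ E then T else univ : Finset (Fin (M + 1))).card =
      ∏ e : ι, (if e ∈ E then T.card else (M + 1)) := by
    refine prod_congr rfl fun e _ => ?_
    split_ifs <;> simp
  rw [h1]
  have h2 : (M + 1) ^ E.card = ∏ e : ι, (if e ∈ E then M + 1 else 1) := by
    rw [Finset.prod_ite_mem]; simp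
  have h3 : T.card ^ E.card = ∏ e : ι, (if e ∈ E then T.card else 1) := by
    rw [Finset.prod_ite_mem]; simp
  have h4 : (M + 1) ^ Fintype.card ι = ∏ _e : ι, (M + 1) := by simp
  rw [h2, h3, h4, ← prod_mul_distrib, ← prod_mul_distrib]
  refine prod_congr rfl fun e _ => ?_
  split_ifs <;> ring

theorem bern (M k : ℕ) : M ^ (k + 1) + (k + 1) * M ^ k ≤ (M + 1) ^ (k + 1) := by
  induction k with
  | zero => simp
  | succ k ih =>
    calc M ^ (k + 1 + 1) + (k + 1 + 1) * M ^ (k + 1)
        ≤ (M + 1) * (M ^ (k + 1) + (k + 1) * M ^ k) := by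
          have : (M + 1) * (M ^ (k + 1) + (k + 1) * M ^ k) =
            M ^ (k + 1 + 1) + (k + 1 + 1) * M ^ (k + 1) + (k + 1) * M ^ k := by ring
          rw [this]
          exact Nat.le_add_right _ _
      _ ≤ (M + 1) * (M + 1) ^ (k + 1) := Nat.mul_le_mul_left _ ih
      _ = (M + 1) ^ (k + 1 + 1) := by ring

theorem two_pow (M : ℕ) : 2 * M ^ (M + 1) ≤ (M + 1) ^ (M + 1) := by
  have h := bern M M
  have h2 : M ^ (M + 1) ≤ (M + 1) * M ^ M := by
    rw [pow_succ, mul_comm]
    exact Nat.mul_le_mul_right _ (Nat.le_succ M)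
  omega

theorem num1 (n M a t : ℕ) (ht : 2 * n ≤ 2 ^ t) (ha : 2 ≤ a) (hat : 2 * (M + 1) * t < a) :
    2 * (n.choose a) * M ^ (a.choose 2) ≤ (M + 1) ^ (a.choose 2) := by
  have hc : (M + 1) * (t * a) ≤ a.choose 2 := by
    rw [Nat.choose_two_right]
    rw [Nat.le_div_iff_mul_le (by norm_num)]
    have : (M + 1) * (t * a) * 2 = a * (2 * (M + 1) * t) := by ring
    rw [this]
    exact Nat.mul_le_mul_left _ (by omega)
  obtain ⟨r, hr⟩ := Nat.exists_eq_add_of_le hc
  rw [hr, pow_add, pow_add]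
  have h1 : 2 * n.choose a ≤ 2 ^ (t * a) := by
    calc 2 * n.choose a ≤ 2 * n ^ a := Nat.mul_le_mul_left _ (Nat.choose_le_pow n a)
      _ ≤ 2 ^ a * n ^ a := by
          apply Nat.mul_le_mul_right
          calc 2 = 2 ^ 1 := by norm_num
            _ ≤ 2 ^ a := Nat.pow_le_pow_right (by norm_num) (by omega)
      _ = (2 * n) ^ a := (mul_pow _ _ _).symm
      _ ≤ (2 ^ t) ^ a := Nat.pow_le_pow_left ht a
      _ = 2 ^ (t * a) := (pow_mul _ _ _).symm
  have h2 : 2 ^ (t * a) * M ^ ((M + 1) * (t * a)) ≤ (M + 1) ^ ((M + 1) * (t * a)) := by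
    rw [pow_mul M, pow_mul (M + 1), ← mul_pow]
    exact Nat.pow_le_pow_left (two_pow M) _
  calc 2 * n.choose a * (M ^ ((M + 1) * (t * a)) * M ^ r)
      ≤ 2 ^ (t * a) * (M ^ ((M + 1) * (t * a)) * M ^ r) := Nat.mul_le_mul_right _ h1
    _ = (2 ^ (t * a) * M ^ ((M + 1) * (t * a))) * M ^ r := by ring
    _ ≤ (M + 1) ^ ((M + 1) * (t * a)) * (M + 1) ^ r :=
        Nat.mul_le_mul h2 (Nat.pow_le_pow_left (Nat.le_succ M) r)

/-- edges of the closed walk -/
def ed {n : ℕ} (v : ℕ → Fin n) (l i : ℕ) : Sym2 (Fin n) :=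
  s(v i, v (if i + 1 < l then i + 1 else 0))

theorem ed_injOn {n : ℕ} (v : ℕ → Fin n) (l : ℕ) (hl : 3 ≤ l)
    (hv : ∀ i < l, ∀ j < l, v i = v j → i = j) : Set.InjOn (ed v l) (range l : Finset ℕ) := by
  intro i hi j hj hij
  have hi' : i < l := by simpa using hi
  have hj' : j < l := by simpa using hj
  have hni : (if i + 1 < l then i + 1 else 0) < l := by split_ifs <;> omega
  have hnj : (if j + 1 < l then j + 1 else 0) < l := by split_ifs <;> omega
  rw [ed, ed, Sym2.eq_iff] at hij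
  rcases hij with ⟨h1, -⟩ | ⟨h1, h2⟩
  · exact hv i hi' j hj' h1
  · have e1 := hv _ hi' _ hnj h1
    have e2 := hv _ hni _ hj' h2
    split_ifs at e1 e2 <;> omega

theorem cyc_edges {n M : ℕ} (w : Sym2 (Fin n) → Fin (M + 1)) (l : ℕ) (hl : 3 ≤ l)
    (v : ℕ → Fin n) (h : Cyc (gr w) l v) : ∀ e ∈ (range l).image (ed v l), w e ∈ ({0} : Finset (Fin (M + 1))) := by
  intro e he
  rw [mem_image] at he
  obtain ⟨i, hi, rfl⟩ := he
  rw [mem_range] at hi
  rw [mem_singleton, ed]
  split_ifs with h1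
  · exact ((gr_adj w _ _).1 (h.2.1 i h1)).2
  · have : i = l - 1 := by omega
    rw [this]
    exact ((gr_adj w _ _).1 h.2.2).2

theorem cnt_cyc {n M : ℕ} (l : ℕ) (hl : 3 ≤ l) (v : ℕ → Fin n) [DecidablePred
    (fun w : Sym2 (Fin n) → Fin (M + 1) => Cyc (gr w) l v)] :
    (univ.filter (fun w : Sym2 (Fin n) → Fin (M + 1) => Cyc (gr w) l v)).card * (M + 1) ^ l ≤
      (M + 1) ^ Fintype.card (Sym2 (Fin n)) := by
  by_cases hv : ∀ i < l, ∀ j < l, v i = v j → i = j
  · have hcard : ((range l).image (ed v l)).card = l := by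
      rw [card_image_of_injOn (ed_injOn v l hl hv), card_range]
    have h := cnt (ι := Sym2 (Fin n)) M {0} ((range l).image (ed v l))
    rw [hcard, card_singleton, one_pow, one_mul] at h
    rw [← h]
    apply Nat.mul_le_mul_right
    apply card_le_card
    intro w hw
    rw [mem_filter] at hw ⊢
    exact ⟨mem_univ _, cyc_edges w l hl v hw.2⟩
  · have : univ.filter (fun w : Sym2 (Fin n) → Fin (M + 1) => Cyc (gr w) l v) = ∅ := by
      rw [filter_eq_empty_iff]
      intro w _ hw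
      exact hv hw.1
    rw [this]
    simp

/-- extension of a finite sequence -/
def ext {n l : ℕ} (x0 : Fin n) (u : Fin l → Fin n) : ℕ → Fin n :=
  fun i => if h : i < l then u ⟨i, h⟩ else x0

theorem cyc_ext {n l : ℕ} (G : SimpleGraph (Fin n)) (x0 : Fin n) (hl : 3 ≤ l) (v : ℕ → Fin n)
    (h : Cyc G l v) : Cyc G l (ext x0 (fun i : Fin l => v i)) ∧
      ext x0 (fun i : Fin l => v i) 0 = v 0 := by
  have he : ∀ i, i < l → ext x0 (fun i : Fin l => v i) i = v i := by
    intro i hi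
    simp [ext, hi]
  refine ⟨⟨?_, ?_, ?_⟩, he 0 (by omega)⟩
  · intro i hi j hj hij
    rw [he i hi, he j hj] at hij
    exact h.1 i hi j hj hij
  · intro i hi
    rw [he i (by omega), he (i + 1) hi]
    exact h.2.1 i hi
  · rw [he (l - 1) (by omega), he 0 (by omega)]
    exact h.2.2

open Classical in
theorem rowB : RowB := by
  intro n L a t g hL ht ha hat hsum
  obtain ⟨M, rfl⟩ : ∃ M, L = M + 1 := ⟨L - 1, by omega⟩
  have hn : 0 < n := by
    rcases Nat.eq_zero_or_pos n with h | h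
    · subst h; simp at hsum
    · exact h
  let x0 : Fin n := ⟨0, hn⟩
  let Om := Sym2 (Fin n) → Fin (M + 1)
  set N := Fintype.card (Sym2 (Fin n)) with hN
  have hOm : (univ : Finset Om).card = (M + 1) ^ N := by
    simp [Om, hN]
  -- first bad set
  let B1 : Finset Om := univ.filter
    (fun w => ∃ A : Finset (Fin n), A.card = a ∧ ∀ x ∈ A, ∀ y ∈ A, ¬ (gr w).Adj x y)
  have hB1 : 2 * B1.card ≤ (M + 1) ^ N := by
    let EA : Finset (Fin n) → Finset (Sym2 (Fin n)) := fun A =>
      A.offDiag.image (fun p => s(p.1, p.2))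
    have hEA : ∀ A : Finset (Fin n), (EA A).card = A.card.choose 2 := fun A =>
      Sym2.card_image_offDiag A
    let T : Finset (Fin (M + 1)) := univ.erase 0
    have hT : T.card = M := by
      simp [T]
    have hsub : B1 ⊆ (powersetCard a (univ : Finset (Fin n))).biUnion
        (fun A => univ.filter (fun w : Om => ∀ e ∈ EA A, w e ∈ T)) := by
      intro w hw
      obtain ⟨A, hA, hAw⟩ := (mem_filter.1 hw).2
      rw [mem_biUnion]
      refine ⟨A, mem_powersetCard.2 ⟨subset_univ _, hA⟩, mem_filter.2 ⟨mem_univ _, ?_⟩⟩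
      intro e he
      obtain ⟨p, hp, rfl⟩ := mem_image.1 he
      rw [mem_offDiag] at hp
      refine mem_erase.2 ⟨fun h0 => ?_, mem_univ _⟩
      exact hAw _ hp.1 _ hp.2.1 ((gr_adj w _ _).2 ⟨hp.2.2, h0⟩)
    have h1 : B1.card * (M + 1) ^ (a.choose 2) ≤
        n.choose a * (M ^ (a.choose 2) * (M + 1) ^ N) := by
      calc B1.card * (M + 1) ^ (a.choose 2)
          ≤ (∑ A ∈ powersetCard a (univ : Finset (Fin n)),
            (univ.filter (fun w : Om => ∀ e ∈ EA A, w e ∈ T)).card) * (M + 1) ^ (a.choose 2) :=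
            Nat.mul_le_mul_right _ ((card_le_card hsub).trans card_biUnion_le)
        _ = ∑ A ∈ powersetCard a (univ : Finset (Fin n)), M ^ (a.choose 2) * (M + 1) ^ N := by
            rw [sum_mul]
            refine sum_congr rfl fun A hA => ?_
            have hA2 : A.card = a := (mem_powersetCard.1 hA).2
            have := cnt (ι := Sym2 (Fin n)) M T (EA A)
            rw [hEA A, hA2, hT] at this
            exact this
        _ = n.choose a * (M ^ (a.choose 2) * (M + 1) ^ N) := by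
            rw [sum_const, card_powersetCard, card_univ, Fintype.card_fin, smul_eq_mul]
    have h2 := num1 n M a t ht ha hat
    have hpos : 0 < (M + 1) ^ (a.choose 2) := by positivity
    refine Nat.le_of_mul_le_mul_right ?_ hpos
    calc 2 * B1.card * (M + 1) ^ (a.choose 2) = 2 * (B1.card * (M + 1) ^ (a.choose 2)) := by ring
      _ ≤ 2 * (n.choose a * (M ^ (a.choose 2) * (M + 1) ^ N)) := Nat.mul_le_mul_left _ h1
      _ = (2 * n.choose a * M ^ (a.choose 2)) * (M + 1) ^ N := by ring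
      _ ≤ (M + 1) ^ (a.choose 2) * (M + 1) ^ N := Nat.mul_le_mul_right _ h2
      _ = (M + 1) ^ N * (M + 1) ^ (a.choose 2) := by ring
  -- second bad set
  let S : Om → Finset (Fin n) := fun w => univ.filter
    (fun x => ∃ l, 3 ≤ l ∧ l < g ∧ ∃ v : ℕ → Fin n, Cyc (gr w) l v ∧ v 0 = x)
  let B2 : Finset Om := univ.filter (fun w => n ≤ 2 * (S w).card)
  have hS : ∀ w : Om, (S w).card ≤ ∑ l ∈ Ico 3 g,
      (univ.filter (fun u : Fin l → Fin n => Cyc (gr w) l (ext x0 u))).card := by
    intro w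
    have hsub : S w ⊆ (Ico 3 g).biUnion (fun l =>
        (univ.filter (fun u : Fin l → Fin n => Cyc (gr w) l (ext x0 u))).image
          (fun u => ext x0 u 0)) := by
      intro x hx
      obtain ⟨l, hl, hlg, v, hv, hvx⟩ := (mem_filter.1 hx).2
      rw [mem_biUnion]
      refine ⟨l, mem_Ico.2 ⟨hl, hlg⟩, mem_image.2 ⟨fun i : Fin l => v i, ?_, ?_⟩⟩
      · exact mem_filter.2 ⟨mem_univ _, (cyc_ext (gr w) x0 hl v hv).1⟩
      · rw [(cyc_ext (gr w) x0 hl v hv).2, hvx]
    exact (card_le_card hsub).trans (card_biUnion_le.trans (sum_le_sum fun l _ => card_image_le))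
  have hSum : (∑ w : Om, (S w).card) * (M + 1) ^ g ≤
      (∑ l ∈ Ico 3 g, n ^ l * (M + 1) ^ (g - l)) * (M + 1) ^ N := by
    calc (∑ w : Om, (S w).card) * (M + 1) ^ g
        ≤ (∑ w : Om, ∑ l ∈ Ico 3 g,
          (univ.filter (fun u : Fin l → Fin n => Cyc (gr w) l (ext x0 u))).card) * (M + 1) ^ g :=
          Nat.mul_le_mul_right _ (sum_le_sum fun w _ => hS w)
      _ = (∑ l ∈ Ico 3 g, ∑ u : Fin l → Fin n,
          (univ.filter (fun w : Om => Cyc (gr w) l (ext x0 u))).card) * (M + 1) ^ g := by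
          congr 1
          rw [sum_comm]
          refine sum_congr rfl fun l _ => ?_
          simp only [card_filter]
          rw [sum_comm]
      _ = ∑ l ∈ Ico 3 g, ∑ u : Fin l → Fin n,
          (univ.filter (fun w : Om => Cyc (gr w) l (ext x0 u))).card * (M + 1) ^ g := by
          rw [sum_mul]
          refine sum_congr rfl fun l _ => ?_
          rw [sum_mul]
      _ ≤ ∑ l ∈ Ico 3 g, ∑ u : Fin l → Fin n, (M + 1) ^ (g - l) * (M + 1) ^ N := by
          refine sum_le_sum fun l hl => sum_le_sum fun u _ => ?_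
          rw [mem_Ico] at hl
          have hg : (M + 1) ^ g = (M + 1) ^ l * (M + 1) ^ (g - l) := by
            rw [← pow_add]
            congr 1
            omega
          rw [hg, ← mul_assoc, mul_comm ((M + 1) ^ (g - l))]
          exact Nat.mul_le_mul_right _ (cnt_cyc l hl.1 (ext x0 u))
      _ = (∑ l ∈ Ico 3 g, n ^ l * (M + 1) ^ (g - l)) * (M + 1) ^ N := by
          rw [sum_mul]
          refine sum_congr rfl fun l _ => ?_
          rw [sum_const, card_univ, Fintype.card_fun, Fintype.card_fin, Fintype.card_fin,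
            smul_eq_mul, mul_assoc]
  have hB2 : 2 * B2.card < (M + 1) ^ N := by
    have h1 : n * B2.card ≤ 2 * ∑ w : Om, (S w).card := by
      calc n * B2.card = ∑ w ∈ B2, n := by rw [sum_const, smul_eq_mul, mul_comm]
        _ ≤ ∑ w ∈ B2, 2 * (S w).card := sum_le_sum fun w hw => (mem_filter.1 hw).2
        _ ≤ ∑ w : Om, 2 * (S w).card := sum_le_sum_of_subset (subset_univ _)
        _ = 2 * ∑ w : Om, (S w).card := (mul_sum _ _ _).symm
    have hpos : 0 < n * (M + 1) ^ g := by positivity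
    refine Nat.lt_of_mul_lt_mul_left (a := n * (M + 1) ^ g) ?_
    calc n * (M + 1) ^ g * (2 * B2.card) = 2 * (n * B2.card) * (M + 1) ^ g := by ring
      _ ≤ 2 * (2 * ∑ w : Om, (S w).card) * (M + 1) ^ g :=
          Nat.mul_le_mul_right _ (Nat.mul_le_mul_left _ h1)
      _ = 4 * ((∑ w : Om, (S w).card) * (M + 1) ^ g) := by ring
      _ ≤ 4 * ((∑ l ∈ Ico 3 g, n ^ l * (M + 1) ^ (g - l)) * (M + 1) ^ N) :=
          Nat.mul_le_mul_left _ hSum
      _ = (4 * ∑ l ∈ Ico 3 g, n ^ l * (M + 1) ^ (g - l)) * (M + 1) ^ N := by ring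
      _ < n * (M + 1) ^ g * (M + 1) ^ N := Nat.mul_lt_mul_of_pos_right hsum (by positivity)
  have hex : ∃ w : Om, w ∉ B1 ∪ B2 := by
    by_contra hc
    push Not at hc
    have h1 : (univ : Finset Om).card ≤ (B1 ∪ B2).card := card_le_card fun w _ => hc w
    have h2 := card_union_le B1 B2
    rw [hOm] at h1
    omega
  obtain ⟨w, hw⟩ := hex
  rw [mem_union, not_or] at hw
  refine ⟨gr w, S w, ?_, ?_, ?_⟩
  · by_contra hc
    exact hw.2 (mem_filter.2 ⟨mem_univ _, by omega⟩)
  · intro A hA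
    by_contra hc
    push Not at hc
    exact hw.1 (mem_filter.2 ⟨mem_univ _, A, hA, hc⟩)
  · intro l hl hlg v hv
    exact mem_filter.2 ⟨mem_univ _, l, hl, hlg, v, hv, rfl⟩

end Pool.Agent.GR11.B92
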