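import Pool.Agent.GR11.Defs

namespace Pool.Agent.GR11
open Finset

namespace B33

theorem card_zero {I : Type} [Fintype I] [DecidableEq I] (L : ℕ) (z : Fin L) (T : Finset I) :
    (univ.filter (fun f : I → Fin L => ∀ i ∈ T, f i = z)).card * L ^ T.card =
      L ^ Fintype.card I := by
  have h : (univ.filter (fun f : I → Fin L => ∀ i ∈ T, f i = z)) =
      Fintype.piFinset (fun i => if i ∈ T then {z} else univ) := by
    ext f
    simp only [mem_filter, mem_univ, true_and, Fintype.mem_piFinset]
    constructor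
    · intro h i
      split_ifs with hi
      · simp [h i hi]
      · simp
    · intro h i hi
      have := h i
      simpa [hi] using this
  rw [h, Fintype.card_piFinset]
  have h2 : ∀ i, (if i ∈ T then ({z} : Finset (Fin L)) else univ).card =
      if i ∈ T then 1 else L := by
    intro i
    split_ifs <;> simp
  simp only [h2]
  have h3 : (L ^ T.card) = ∏ i : I, (if i ∈ T then L else 1) := by
    rw [Finset.prod_ite_mem, Finset.univ_inter, Finset.prod_const]
  rw [h3, ← Finset.prod_mul_distrib]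
  have h4 : ∀ i : I, (if i ∈ T then 1 else L) * (if i ∈ T then L else 1) = L := by
    intro i
    split_ifs <;> simp
  simp only [h4, Finset.prod_const, Finset.card_univ]

theorem card_nonzero {I : Type} [Fintype I] [DecidableEq I] (L : ℕ) (z : Fin L) (T : Finset I) :
    (univ.filter (fun f : I → Fin L => ∀ i ∈ T, f i ≠ z)).card * L ^ T.card =
      (L - 1) ^ T.card * L ^ Fintype.card I := by
  have h : (univ.filter (fun f : I → Fin L => ∀ i ∈ T, f i ≠ z)) =
      Fintype.piFinset (fun i => if i ∈ T then univ.erase z else univ) := by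
    ext f
    simp only [mem_filter, mem_univ, true_and, Fintype.mem_piFinset]
    constructor
    · intro h i
      split_ifs with hi
      · simp [h i hi]
      · simp
    · intro h i hi
      have := h i
      simpa [hi] using this
  rw [h, Fintype.card_piFinset]
  have h2 : ∀ i, (if i ∈ T then (univ.erase z : Finset (Fin L)) else univ).card =
      if i ∈ T then L - 1 else L := by
    intro i
    split_ifs <;> simp
  simp only [h2]
  have h3 : (L ^ T.card) = ∏ i : I, (if i ∈ T then L else 1) := by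
    rw [Finset.prod_ite_mem, Finset.univ_inter, Finset.prod_const]
  have h5 : ((L - 1) ^ T.card) = ∏ i : I, (if i ∈ T then (L - 1) else 1) := by
    rw [Finset.prod_ite_mem, Finset.univ_inter, Finset.prod_const]
  have h6 : L ^ Fintype.card I = ∏ i : I, L := by
    rw [Finset.prod_const, Finset.card_univ]
  rw [h3, h5, h6, ← Finset.prod_mul_distrib, ← Finset.prod_mul_distrib]
  refine Finset.prod_congr rfl fun i _ => ?_
  split_ifs <;> simp

theorem bern (m k : ℕ) : m ^ k * (m + k) ≤ (m + 1) ^ k * m := by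
  induction k with
  | zero => simp
  | succ k ih =>
    calc m ^ (k + 1) * (m + (k + 1)) ≤ (m + 1) * (m ^ k * (m + k)) := by
          have : (m + 1) * (m ^ k * (m + k)) = m ^ (k + 1) * (m + (k + 1)) + m ^ k * k := by ring
          omega
      _ ≤ (m + 1) * ((m + 1) ^ k * m) := Nat.mul_le_mul_left _ ih
      _ = (m + 1) ^ (k + 1) * m := by ring

theorem two_pow_le (L : ℕ) (hL : 1 ≤ L) : 2 * (L - 1) ^ L ≤ L ^ L := by
  obtain ⟨m, rfl⟩ : ∃ m, L = m + 1 := ⟨L - 1, by omega⟩
  rw [Nat.add_sub_cancel]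
  rcases Nat.eq_zero_or_pos m with h | h
  · subst h
    simp
  · have h1 := bern m (m + 1)
    have h2 : m ^ (m + 1) * (m + (m + 1)) = (2 * m ^ (m + 1)) * m + m ^ (m + 1) := by ring
    have h3 : (2 * m ^ (m + 1)) * m ≤ (m + 1) ^ (m + 1) * m := by omega
    exact Nat.le_of_mul_le_mul_right h3 h

theorem numbers (L a t : ℕ) (hL : 1 ≤ L) (hat : 2 * L * t < a) :
    2 ^ (t * a) * (L - 1) ^ (a.choose 2) ≤ L ^ (a.choose 2) := by
  have hc : L * (t * a) ≤ a.choose 2 := by
    rw [Nat.choose_two_right, Nat.le_div_iff_mul_le (by norm_num)]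
    calc L * (t * a) * 2 = a * (2 * L * t) := by ring
      _ ≤ a * (a - 1) := Nat.mul_le_mul_left _ (by omega)
  obtain ⟨r, hr⟩ := Nat.exists_eq_add_of_le hc
  rw [hr, pow_add, pow_add, pow_mul (L - 1) L (t * a), pow_mul L L (t * a)]
  calc 2 ^ (t * a) * (((L - 1) ^ L) ^ (t * a) * (L - 1) ^ r)
      = (2 * (L - 1) ^ L) ^ (t * a) * (L - 1) ^ r := by rw [mul_pow]; ring
    _ ≤ (L ^ L) ^ (t * a) * L ^ r :=
        Nat.mul_le_mul (Nat.pow_le_pow_left (two_pow_le L hL) _)
          (Nat.pow_le_pow_left (by omega) _)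

theorem bad1 (n L a t : ℕ) (hL : 1 ≤ L) (h2 : 2 * n ≤ 2 ^ t) (ha : 2 ≤ a)
    (hat : 2 * L * t < a) (z : Fin L) :
    4 * (univ.filter (fun f : Sym2 (Fin n) → Fin L => ∃ A : Finset (Fin n), A.card = a ∧
      ∀ x ∈ A, ∀ y ∈ A, x ≠ y → f s(x, y) ≠ z)).card ≤ L ^ Fintype.card (Sym2 (Fin n)) := by
  classical
  set N := Fintype.card (Sym2 (Fin n))
  set B := (univ.filter (fun f : Sym2 (Fin n) → Fin L => ∃ A : Finset (Fin n), A.card = a ∧
      ∀ x ∈ A, ∀ y ∈ A, x ≠ y → f s(x, y) ≠ z))
  have hB : B ⊆ (powersetCard a univ).biUnion (fun A => univ.filter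
      (fun f : Sym2 (Fin n) → Fin L => ∀ e ∈ A.offDiag.image (Sym2.mk.uncurry : Fin n × Fin n → Sym2 (Fin n)), f e ≠ z)) := by
    intro f hf
    simp only [B, mem_filter, mem_univ, true_and] at hf
    obtain ⟨A, hA, hf⟩ := hf
    simp only [mem_biUnion, mem_powersetCard, mem_filter, mem_univ, true_and]
    refine ⟨A, ⟨subset_univ _, hA⟩, ?_⟩
    intro e he
    simp only [mem_image, mem_offDiag, Prod.exists] at he
    obtain ⟨x, y, ⟨hx, hy, hxy⟩, rfl⟩ := he
    exact hf x hx y hy hxy
  have h3 : B.card * L ^ (a.choose 2) ≤ n.choose a * ((L - 1) ^ (a.choose 2) * L ^ N) := by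
    calc B.card * L ^ (a.choose 2) ≤ (∑ A ∈ powersetCard a (univ : Finset (Fin n)),
          (univ.filter (fun f : Sym2 (Fin n) → Fin L =>
            ∀ e ∈ A.offDiag.image (Sym2.mk.uncurry : Fin n × Fin n → Sym2 (Fin n)), f e ≠ z)).card) * L ^ (a.choose 2) :=
          Nat.mul_le_mul_right _ ((card_le_card hB).trans card_biUnion_le)
      _ = ∑ A ∈ powersetCard a (univ : Finset (Fin n)), (L - 1) ^ (a.choose 2) * L ^ N := by
          rw [Finset.sum_mul]
          refine Finset.sum_congr rfl fun A hA => ?_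
          have hA' : A.card = a := (mem_powersetCard.1 hA).2
          have hT : (A.offDiag.image (Sym2.mk.uncurry : Fin n × Fin n → Sym2 (Fin n))).card = a.choose 2 := by
            rw [Sym2.card_image_offDiag, hA']
          have := card_nonzero L z (A.offDiag.image (Sym2.mk.uncurry : Fin n × Fin n → Sym2 (Fin n)))
          rw [hT] at this
          exact this
      _ = n.choose a * ((L - 1) ^ (a.choose 2) * L ^ N) := by
          rw [Finset.sum_const, card_powersetCard, card_univ, Fintype.card_fin, smul_eq_mul]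
  have h4 : n.choose a ≤ n ^ a := Nat.choose_le_pow n a
  have h5 : 4 ≤ 2 ^ a := by
    calc 4 = 2 ^ 2 := by norm_num
      _ ≤ 2 ^ a := Nat.pow_le_pow_right (by norm_num) ha
  have h6 : (4 * B.card) * L ^ (a.choose 2) ≤ L ^ N * L ^ (a.choose 2) := by
    calc (4 * B.card) * L ^ (a.choose 2) = 4 * (B.card * L ^ (a.choose 2)) := by ring
      _ ≤ 2 ^ a * (n ^ a * ((L - 1) ^ (a.choose 2) * L ^ N)) :=
          Nat.mul_le_mul h5 (h3.trans (Nat.mul_le_mul_right _ h4))
      _ = (2 * n) ^ a * (L - 1) ^ (a.choose 2) * L ^ N := by rw [mul_pow]; ring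
      _ ≤ (2 ^ t) ^ a * (L - 1) ^ (a.choose 2) * L ^ N :=
          Nat.mul_le_mul_right _ (Nat.mul_le_mul_right _ (Nat.pow_le_pow_left h2 _))
      _ = (2 ^ (t * a) * (L - 1) ^ (a.choose 2)) * L ^ N := by rw [← pow_mul]
      _ ≤ L ^ (a.choose 2) * L ^ N := Nat.mul_le_mul_right _ (numbers L a t hL hat)
      _ = L ^ N * L ^ (a.choose 2) := by ring
  exact Nat.le_of_mul_le_mul_right h6 (Nat.pow_pos (by omega))

/-- next index on the cycle `0, ..., l - 1` -/
def nx (l : ℕ) (i : Fin l) : Fin l := ⟨(i.1 + 1) % l, Nat.mod_lt _ (by have := i.2; omega)⟩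

/-- edges of the closed sequence -/
def T (n l : ℕ) (w : Fin l → Fin n) : Finset (Sym2 (Fin n)) :=
  univ.image (fun i : Fin l => s(w i, w (nx l i)))

theorem card_T (n l : ℕ) (hl : 3 ≤ l) (w : Fin l → Fin n) (hw : Function.Injective w) :
    (T n l w).card = l := by
  unfold T
  rw [Finset.card_image_of_injective, card_univ, Fintype.card_fin]
  intro i j hij
  have hij' : (w i = w j ∧ w (nx l i) = w (nx l j)) ∨ (w i = w (nx l j) ∧ w (nx l i) = w j) := by
    simpa only [Sym2.eq_iff] using hij
  rcases hij' with h | h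
  · exact hw h.1
  · exfalso
    have h1 := congrArg Fin.val (hw h.1)
    have h2 := congrArg Fin.val (hw h.2)
    simp only [nx] at h1 h2
    have hi := i.2
    have hj := j.2
    rcases Nat.lt_or_ge (i.1 + 1) l with hi' | hi'
    · rw [Nat.mod_eq_of_lt hi'] at h2
      rcases Nat.lt_or_ge (j.1 + 1) l with hj' | hj'
      · rw [Nat.mod_eq_of_lt hj'] at h1
        omega
      · have : j.1 + 1 = l := by omega
        rw [this, Nat.mod_self] at h1
        omega
    · have : i.1 + 1 = l := by omega
      rw [this, Nat.mod_self] at h2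
      rw [← h2, Nat.mod_eq_of_lt (by omega)] at h1
      omega

theorem count_cyc (n L l : ℕ) (hl : 3 ≤ l) (z : Fin L) :
    (∑ f : Sym2 (Fin n) → Fin L, (univ.filter (fun w : Fin l → Fin n => Function.Injective w ∧
      ∀ e ∈ T n l w, f e = z)).card) * L ^ l ≤ n ^ l * L ^ Fintype.card (Sym2 (Fin n)) := by
  classical
  have h1 : (∑ f : Sym2 (Fin n) → Fin L, (univ.filter (fun w : Fin l → Fin n =>
      Function.Injective w ∧ ∀ e ∈ T n l w, f e = z)).card) =
      ∑ w : Fin l → Fin n, (univ.filter (fun f : Sym2 (Fin n) → Fin L =>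
        Function.Injective w ∧ ∀ e ∈ T n l w, f e = z)).card := by
    simp only [Finset.card_filter]
    exact Finset.sum_comm
  rw [h1, Finset.sum_mul]
  calc ∑ w : Fin l → Fin n, (univ.filter (fun f : Sym2 (Fin n) → Fin L =>
        Function.Injective w ∧ ∀ e ∈ T n l w, f e = z)).card * L ^ l
      ≤ ∑ w : Fin l → Fin n, L ^ Fintype.card (Sym2 (Fin n)) := by
        refine Finset.sum_le_sum fun w _ => ?_
        by_cases hw : Function.Injective w
        · have := card_zero L z (T n l w)
          rw [card_T n l hl w hw] at this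
          rw [← this]
          refine Nat.mul_le_mul_right _ (card_le_card ?_)
          intro f hf
          simp only [mem_filter, mem_univ, true_and] at hf ⊢
          exact hf.2
        · have : (univ.filter (fun f : Sym2 (Fin n) → Fin L =>
              Function.Injective w ∧ ∀ e ∈ T n l w, f e = z)) = ∅ := by
            ext f
            simp [hw]
          rw [this]
          simp
    _ = n ^ l * L ^ Fintype.card (Sym2 (Fin n)) := by
        simp [Finset.sum_const, Finset.card_univ]

end B33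

open B33 in
theorem rowB : RowB := by
  classical
  intro n L a t g hL h2 ha hat hsum
  have hn : 0 < n := by
    rcases Nat.eq_zero_or_pos n with h | h
    · subst h
      simp at hsum
    · exact h
  set z : Fin L := ⟨0, hL⟩
  set x0 : Fin n := ⟨0, hn⟩
  set N := Fintype.card (Sym2 (Fin n)) with hN
  -- short cycles through `f`
  let W : (Sym2 (Fin n) → Fin L) → (l : ℕ) → Finset (Fin l → Fin n) := fun f l =>
    univ.filter (fun w : Fin l → Fin n => Function.Injective w ∧ ∀ e ∈ T n l w, f e = z)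
  let S : (Sym2 (Fin n) → Fin L) → Finset (Fin n) := fun f =>
    (Ico 3 g).biUnion (fun l => (W f l).image (fun w => if h : 0 < l then w ⟨0, h⟩ else x0))
  have hS : ∀ f, (S f).card ≤ ∑ l ∈ Ico 3 g, (W f l).card := fun f =>
    card_biUnion_le.trans (Finset.sum_le_sum fun l _ => card_image_le)
  have hS2 : (∑ f, (S f).card) * L ^ g ≤ (∑ l ∈ Ico 3 g, n ^ l * L ^ (g - l)) * L ^ N := by
    calc (∑ f, (S f).card) * L ^ g ≤ (∑ f, ∑ l ∈ Ico 3 g, (W f l).card) * L ^ g :=
          Nat.mul_le_mul_right _ (Finset.sum_le_sum fun f _ => hS f)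
      _ = ∑ l ∈ Ico 3 g, (∑ f, (W f l).card) * L ^ g := by
          rw [Finset.sum_comm, Finset.sum_mul]
      _ ≤ ∑ l ∈ Ico 3 g, (n ^ l * L ^ (g - l)) * L ^ N := by
          refine Finset.sum_le_sum fun l hl => ?_
          rw [mem_Ico] at hl
          have h := count_cyc n L l hl.1 z
          have h3 : L ^ g = L ^ l * L ^ (g - l) := by
            rw [← pow_add]
            congr 1
            omega
          calc (∑ f, (W f l).card) * L ^ g = ((∑ f, (W f l).card) * L ^ l) * L ^ (g - l) := by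
                rw [h3]; ring
            _ ≤ (n ^ l * L ^ N) * L ^ (g - l) := Nat.mul_le_mul_right _ h
            _ = (n ^ l * L ^ (g - l)) * L ^ N := by ring
      _ = (∑ l ∈ Ico 3 g, n ^ l * L ^ (g - l)) * L ^ N := by rw [Finset.sum_mul]
  have hLN : 0 < L ^ N := Nat.pow_pos (by omega)
  have hS3 : 4 * (∑ f, (S f).card) < n * L ^ N := by
    have h3 : (4 * (∑ f, (S f).card)) * L ^ g < (n * L ^ N) * L ^ g := by
      calc (4 * (∑ f, (S f).card)) * L ^ g = 4 * ((∑ f, (S f).card) * L ^ g) := by ring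
        _ ≤ 4 * ((∑ l ∈ Ico 3 g, n ^ l * L ^ (g - l)) * L ^ N) := Nat.mul_le_mul_left _ hS2
        _ = (4 * (∑ l ∈ Ico 3 g, n ^ l * L ^ (g - l))) * L ^ N := by ring
        _ < (n * L ^ g) * L ^ N := Nat.mul_lt_mul_of_pos_right hsum hLN
        _ = (n * L ^ N) * L ^ g := by ring
    exact lt_of_mul_lt_mul_right h3 (Nat.zero_le _)
  set B := (univ.filter (fun f : Sym2 (Fin n) → Fin L => ∃ A : Finset (Fin n), A.card = a ∧
      ∀ x ∈ A, ∀ y ∈ A, x ≠ y → f s(x, y) ≠ z)) with hB
  have hB4 : 4 * B.card ≤ L ^ N := bad1 n L a t hL h2 ha hat z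
  -- a good function
  obtain ⟨f, hf1, hf2⟩ : ∃ f : Sym2 (Fin n) → Fin L, f ∉ B ∧ 2 * (S f).card < n := by
    by_contra hcon
    push Not at hcon
    have h3 : ∀ f : Sym2 (Fin n) → Fin L, n ≤ n * (if f ∈ B then 1 else 0) + 2 * (S f).card := by
      intro f
      by_cases hf : f ∈ B
      · simp [hf]
      · have := hcon f hf
        simp only [hf, if_false]
        omega
    have h4 : n * L ^ N ≤ n * B.card + 2 * ∑ f, (S f).card := by
      calc n * L ^ N = ∑ f : Sym2 (Fin n) → Fin L, n := by
            simp [Finset.sum_const, Finset.card_univ, hN, mul_comm]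
        _ ≤ ∑ f : Sym2 (Fin n) → Fin L, (n * (if f ∈ B then 1 else 0) + 2 * (S f).card) :=
            Finset.sum_le_sum fun f _ => h3 f
        _ = n * B.card + 2 * ∑ f, (S f).card := by
            rw [Finset.sum_add_distrib, ← Finset.mul_sum, ← Finset.mul_sum]
            congr 2
            simp
    have h5 : n * (4 * B.card) ≤ n * L ^ N := Nat.mul_le_mul_left _ hB4
    have h6 : n * (4 * B.card) = 4 * (n * B.card) := by ring
    omega
  refine ⟨⟨fun x y => x ≠ y ∧ f s(x, y) = z, ⟨fun x y h => ⟨h.1.symm, by rw [Sym2.eq_swap]; exact h.2⟩⟩, ⟨fun x h => h.1 rfl⟩⟩,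
    S f, hf2, ?_, ?_⟩
  · intro A hA
    by_contra hcon
    push Not at hcon
    apply hf1
    rw [hB, mem_filter]
    refine ⟨mem_univ _, A, hA, ?_⟩
    intro x hx y hy hxy he
    exact hcon x hx y hy ⟨hxy, he⟩
  · intro l hl3 hlg v hv
    obtain ⟨hinj, hadj, hlast⟩ := hv
    show v 0 ∈ S f
    simp only [S, mem_biUnion, mem_Ico, mem_image]
    refine ⟨l, ⟨hl3, hlg⟩, fun i : Fin l => v i.1, ?_, ?_⟩
    · simp only [W, mem_filter, mem_univ, true_and]
      refine ⟨?_, ?_⟩
      · intro i j h
        exact Fin.ext (hinj i.1 i.2 j.1 j.2 h)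
      · intro e he
        simp only [T, mem_image, mem_univ, true_and] at he
        obtain ⟨i, rfl⟩ := he
        simp only [nx]
        have hi := i.2
        rcases Nat.lt_or_ge (i.1 + 1) l with hi' | hi'
        · rw [Nat.mod_eq_of_lt hi']
          exact (hadj i.1 hi').2
        · have h1 : i.1 + 1 = l := by omega
          have h2 : i.1 = l - 1 := by omega
          rw [h1, Nat.mod_self, h2]
          exact hlast.2
    · have h0 : 0 < l := by omega
      simp [h0]

end Pool.Agent.GR11
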