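import Pool.Agent.GR11.Defs

/-! # Row C1: exact chromatic number -/

namespace Pool.Agent.GR11.C173

open Pool.Agent.GR11

theorem egirth_comap {V W : Type} (G : SimpleGraph V) (f : W ↪ V) (g : ℕ)
    (hg : (g : ℕ∞) ≤ G.egirth) : (g : ℕ∞) ≤ (G.comap f).egirth := by
  rw [SimpleGraph.le_egirth] at hg ⊢
  intro a w hw
  have hinj : Function.Injective (SimpleGraph.Hom.comap f G) := f.injective
  have h := hg _ (w.map (SimpleGraph.Hom.comap f G)) (hw.map hinj)
  rwa [SimpleGraph.Walk.length_map] at h

theorem rowC1 : RowC1 := by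
  intro V _ G g k hg hk
  classical
  have hex : ∃ n : ℕ, ∃ f : Fin n ↪ V, ¬ (G.comap f).Colorable k := by
    refine ⟨Fintype.card V, (Fintype.equivFin V).symm.toEmbedding, ?_⟩
    intro hC
    apply hk
    obtain ⟨C⟩ := hC
    refine ⟨SimpleGraph.Coloring.mk (fun v => C (Fintype.equivFin V v)) ?_⟩
    intro v w hvw
    apply C.valid
    show G.Adj _ _
    simpa using hvw
  have hmin : ∀ m < Nat.find hex, ∀ f : Fin m ↪ V, (G.comap f).Colorable k := by
    intro m hm f
    by_contra hc
    exact Nat.find_min hex hm ⟨f, hc⟩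
  obtain ⟨f, hf⟩ := Nat.find_spec hex
  have hle : Nat.find hex ≤ Fintype.card V := by
    have := Fintype.card_le_of_embedding f
    rwa [Fintype.card_fin] at this
  have hmain : ∃ n ≤ Fintype.card V, ∃ H : SimpleGraph (Fin n),
      H.chromaticNumber = ((k + 1 : ℕ) : ℕ∞) ∧ (g : ℕ∞) ≤ H.egirth := by
    refine ⟨Nat.find hex, hle, G.comap f, ?_, egirth_comap G f g hg⟩
    rw [Nat.cast_add, Nat.cast_one, SimpleGraph.chromaticNumber_eq_iff_colorable_not_colorable]
    refine ⟨?_, hf⟩
    generalize hN : Nat.find hex = N at f hf hmin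
    clear hN hle
    cases N with
    | zero =>
      exact SimpleGraph.Colorable.of_isEmpty _
    | succ m =>
      obtain ⟨C⟩ := hmin m (Nat.lt_succ_self m)
        ⟨fun i => f i.castSucc, fun i j hij => Fin.castSucc_injective m (f.injective hij)⟩
      refine ⟨SimpleGraph.Coloring.mk
        (fun i => Fin.lastCases (motive := fun _ => Fin (k + 1)) (Fin.last k)
          (fun j => (C j).castSucc) i) ?_⟩
      intro a b
      refine Fin.lastCases ?_ (fun i => ?_) a
      · refine Fin.lastCases ?_ (fun j => ?_) b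
        · intro h
          exact absurd h (SimpleGraph.irrefl _)
        · intro _
          simp only [Fin.lastCases_last, Fin.lastCases_castSucc]
          exact (Fin.castSucc_lt_last _).ne'
      · refine Fin.lastCases ?_ (fun j => ?_) b
        · intro _
          simp only [Fin.lastCases_last, Fin.lastCases_castSucc]
          exact (Fin.castSucc_lt_last _).ne
        · intro h
          simp only [Fin.lastCases_castSucc]
          intro he
          exact C.valid (show _ from h) (Fin.castSucc_injective k he)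
  refine ⟨?_, hmain⟩
  obtain ⟨n, hn, H, h1, h2⟩ := hmain
  exact (Nat.sInf_le (s := {n : ℕ | ∃ G : SimpleGraph (Fin n),
    G.chromaticNumber = ((k + 1 : ℕ) : ℕ∞) ∧ (g : ℕ∞) ≤ G.egirth}) ⟨H, h1, h2⟩).trans hn

end Pool.Agent.GR11.C173
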