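import Pool.Agent.GR11.Defs

/-! # Row E: few large jumps -/

namespace Pool.Agent.GR11

theorem rowE : RowE := by
  intro u C hu hC c hc
  have hC1 : 1 ≤ C := by
    have h1 := hC 1 le_rfl
    have h2 := (hu 2 (by norm_num)).1
    rw [one_pow, mul_one] at h1
    exact le_trans h2 h1
  have hc0 : (0 : ℝ) < c := by linarith
  have key : ∀ K : ℕ,
      c ^ ((Finset.Icc 1 K).filter (fun k => c * (u k : ℝ) < u (k + 1))).card ≤
        (u (K + 1) : ℝ) := by
    intro K
    induction K with
    | zero =>
      have h1 := (hu 1 le_rfl).1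
      have h2 : (1 : ℝ) ≤ (u 1 : ℝ) := by exact_mod_cast h1
      simpa using h2
    | succ K ih =>
      have hI : Finset.Icc 1 (K + 1) = insert (K + 1) (Finset.Icc 1 K) := by
        ext x
        simp only [Finset.mem_Icc, Finset.mem_insert]
        omega
      have hn : K + 1 ∉ (Finset.Icc 1 K).filter (fun k => c * (u k : ℝ) < u (k + 1)) := by
        simp
      rw [hI, Finset.filter_insert]
      by_cases hk : c * (u (K + 1) : ℝ) < u (K + 1 + 1)
      · rw [if_pos hk, Finset.card_insert_of_notMem hn, pow_succ]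
        have h3 : c ^ ((Finset.Icc 1 K).filter (fun k => c * (u k : ℝ) < u (k + 1))).card * c ≤
            (u (K + 1) : ℝ) * c := mul_le_mul_of_nonneg_right ih hc0.le
        linarith
      · rw [if_neg hk]
        have h4 : (u (K + 1) : ℝ) ≤ u (K + 1 + 1) := by
          exact_mod_cast (hu (K + 1) (by omega)).2
        exact le_trans ih h4
  have hlc : 0 < Real.log c := Real.log_pos hc
  have hl2 : 0 < Real.log 2 := Real.log_pos (by norm_num)
  refine ⟨(Real.log C / Real.log 2 + C) / Real.log c, ?_⟩
  intro K hK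
  have hK1 : 1 ≤ K := by omega
  have hKr : (2 : ℝ) ≤ (K : ℝ) := by exact_mod_cast hK
  have hK0 : (0 : ℝ) < (K : ℝ) := by linarith
  have hCr : (1 : ℝ) ≤ (C : ℝ) := by exact_mod_cast hC1
  have hC0 : (0 : ℝ) < (C : ℝ) := by linarith
  have h5 : (u (K + 1) : ℝ) ≤ (C : ℝ) * (K : ℝ) ^ C := by exact_mod_cast hC K hK1
  have h6 := le_trans (key K) h5
  have h7 := Real.log_le_log (pow_pos hc0 _) h6
  rw [Real.log_pow, Real.log_mul hC0.ne' (pow_pos hK0 _).ne', Real.log_pow] at h7
  have h8 : Real.log 2 ≤ Real.log K := Real.log_le_log (by norm_num) hKr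
  have h9 : Real.log C ≤ Real.log C / Real.log 2 * Real.log K := by
    have h10 : 0 ≤ Real.log C / Real.log 2 := div_nonneg (Real.log_nonneg hCr) hl2.le
    calc Real.log C = Real.log C / Real.log 2 * Real.log 2 := by
          field_simp
      _ ≤ Real.log C / Real.log 2 * Real.log K := mul_le_mul_of_nonneg_left h8 h10
  rw [div_mul_eq_mul_div, le_div_iff₀ hlc]
  calc _ ≤ Real.log C + (C : ℝ) * Real.log K := h7
    _ ≤ Real.log C / Real.log 2 * Real.log K + (C : ℝ) * Real.log K := by linarith
    _ = (Real.log C / Real.log 2 + C) * Real.log K := by ring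

end Pool.Agent.GR11
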