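import Pool.Agent.GR11.Main11

/-! # Explicit and uniform version -/

namespace Pool.Agent.GR11.U73

open Pool.Agent.GR11 Finset

/-- explicit parameters for row B -/
theorem params (g k : ℕ) (hg : 3 ≤ g) (hk : 1 ≤ k) : ∃ n L a t : ℕ,
    1 ≤ L ∧ 2 * n ≤ 2 ^ t ∧ 2 ≤ a ∧ 2 * L * t < a ∧
    4 * (∑ l ∈ Finset.Ico 3 g, n ^ l * L ^ (g - l)) < n * L ^ g ∧ 2 * k * a ≤ n ∧
    n ≤ 4 * (16 * g * k) ^ (2 * g) := by
  set u := Nat.log 2 (g * k) + 1 with hu
  have hgk : 1 ≤ g * k := Nat.one_le_iff_ne_zero.2 (by positivity)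
  have h1 : g * k ≤ 2 ^ u := (Nat.lt_pow_succ_log_self (by norm_num) _).le
  have h2 : 2 ^ u ≤ 2 * (g * k) := by
    rw [hu, pow_succ, mul_comm]
    exact Nat.mul_le_mul_left 2 (Nat.pow_log_le_self 2 (by omega))
  set D := 2 ^ (2 * u + 6) with hD
  have hD64 : D = 64 * (2 ^ u * 2 ^ u) := by
    rw [hD, pow_add, two_mul, pow_add]; ring
  have hDpos : 0 < D := by positivity
  have hD2 : 2 ≤ D := by
    have : 1 ≤ 2 ^ u * 2 ^ u := Nat.one_le_iff_ne_zero.2 (by positivity)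
    omega
  set t := (2 * u + 6) * g + 3 with ht
  have hDg : D ^ g = D ^ (g - 1) * D := by
    rw [← pow_succ]; congr 1; omega
  have hLpos : 0 < 4 * D ^ (g - 1) := by positivity
  refine ⟨4 * D ^ g, 4 * D ^ (g - 1), 2 * (4 * D ^ (g - 1)) * t + 1, t, hLpos, ?_, ?_, ?_, ?_, ?_, ?_⟩
  · have : D ^ g = 2 ^ ((2 * u + 6) * g) := by rw [hD, ← pow_mul]
    rw [this, ht, pow_add]
    omega
  · have : 0 < 2 * (4 * D ^ (g - 1)) * t := by positivity
    omega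
  · omega
  · have e1 : ∀ l ∈ Finset.Ico 3 g, (4 * D ^ g) ^ l * (4 * D ^ (g - 1)) ^ (g - l)
        = (4 * D ^ (g - 1)) ^ g * D ^ l := by
      intro l hl
      have hlg : l ≤ g := (Finset.mem_Ico.1 hl).2.le
      have e2 : 4 * D ^ g = (4 * D ^ (g - 1)) * D := by rw [hDg]; ring
      rw [e2, mul_pow]
      have e3 : (4 * D ^ (g - 1)) ^ g = (4 * D ^ (g - 1)) ^ l * (4 * D ^ (g - 1)) ^ (g - l) := by
        rw [← pow_add]; congr 1; omega
      rw [e3]; ring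
    rw [Finset.sum_congr rfl e1, ← Finset.mul_sum]
    have e4 : ∑ l ∈ Finset.Ico 3 g, D ^ l < D ^ g :=
      Nat.geomSum_lt hD2 (fun l hl => (Finset.mem_Ico.1 hl).2)
    have e5 : 0 < (4 * D ^ (g - 1)) ^ g := by positivity
    calc 4 * ((4 * D ^ (g - 1)) ^ g * ∑ l ∈ Finset.Ico 3 g, D ^ l)
        = (4 * (4 * D ^ (g - 1)) ^ g) * ∑ l ∈ Finset.Ico 3 g, D ^ l := by ring
      _ < (4 * (4 * D ^ (g - 1)) ^ g) * D ^ g := Nat.mul_lt_mul_of_pos_left e4 (by positivity)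
      _ = 4 * D ^ g * (4 * D ^ (g - 1)) ^ g := by ring
  · have e1 : 6 * k * t ≤ D := by
      have e2 : k * t ≤ 2 ^ u * (2 * u + 9) := by
        calc k * t ≤ k * (g * (2 * u + 9)) := by
              apply Nat.mul_le_mul_left
              rw [ht]; nlinarith
          _ = (g * k) * (2 * u + 9) := by ring
          _ ≤ 2 ^ u * (2 * u + 9) := Nat.mul_le_mul_right _ h1
      have e3 : u + 1 ≤ 2 ^ u := Nat.lt_two_pow_self
      have e4 : 6 * (2 * u + 9) ≤ 64 * 2 ^ u := by omega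
      calc 6 * k * t = 6 * (k * t) := by ring
        _ ≤ 6 * (2 ^ u * (2 * u + 9)) := Nat.mul_le_mul_left _ e2
        _ = 2 ^ u * (6 * (2 * u + 9)) := by ring
        _ ≤ 2 ^ u * (64 * 2 ^ u) := Nat.mul_le_mul_left _ e4
        _ = D := by rw [hD64]; ring
    have ht1 : 1 ≤ t := by omega
    have e5 : 2 * (4 * D ^ (g - 1)) * t + 1 ≤ 3 * (4 * D ^ (g - 1)) * t := by
      have : 1 ≤ (4 * D ^ (g - 1)) * t := Nat.one_le_iff_ne_zero.2 (by positivity)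
      nlinarith
    calc 2 * k * (2 * (4 * D ^ (g - 1)) * t + 1) ≤ 2 * k * (3 * (4 * D ^ (g - 1)) * t) :=
          Nat.mul_le_mul_left _ e5
      _ = (4 * D ^ (g - 1)) * (6 * k * t) := by ring
      _ ≤ (4 * D ^ (g - 1)) * D := Nat.mul_le_mul_left _ e1
      _ = 4 * D ^ g := by rw [hDg]; ring
  · apply Nat.mul_le_mul_left
    have e1 : D ≤ (16 * g * k) ^ 2 := by
      rw [hD64]
      calc 64 * (2 ^ u * 2 ^ u) ≤ 64 * ((2 * (g * k)) * (2 * (g * k))) :=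
            Nat.mul_le_mul_left _ (Nat.mul_le_mul h2 h2)
        _ = (16 * g * k) ^ 2 := by ring
    calc D ^ g ≤ ((16 * g * k) ^ 2) ^ g := Nat.pow_le_pow_left e1 g
      _ = (16 * g * k) ^ (2 * g) := by rw [← pow_mul]

theorem bound (g k : ℕ) (hg : 3 ≤ g) (hk : 1 ≤ k) : ng g (k + 1) ≤ 4 * (16 * g * k) ^ (2 * g) := by
  obtain ⟨n, L, a, t, h1, h2, h3, h4, h5, h6, h7⟩ := params g k hg hk
  obtain ⟨G, S, g1, g2, g3⟩ := rowB n L a t g h1 h2 h3 h4 h5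
  obtain ⟨V, _, H, e1, e2, e3⟩ := rowC2 A14.rowA n a g k G S g1 g2 g3 h6
  obtain ⟨f1, m, _, H', f3, f4⟩ := rowC1 V H g k e2 e3
  exact f1.trans (e1.trans h7)

theorem one (g : ℕ) (hg : 3 ≤ g) (c : ℝ) (hc : 1 < c) (K : ℕ) (hK : 2 ≤ K) :
    (((Finset.Icc 2 K).filter (fun k => c * (ng g k : ℝ) < ng g (k + 1))).card : ℝ) ≤
      6 * g * Real.log (g * K) / Real.log c := by
  have hlc : 0 < Real.log c := Real.log_pos hc
  have hu : ∀ k, 1 ≤ k → 1 ≤ ng g k ∧ ng g k ≤ ng g (k + 1) :=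
    fun k hk => ⟨pos g hg k hk, mono g hg k hk⟩
  have h1 := E42.jump (ng g) c hc hu K
  have h2 := bound g K hg (by omega)
  have h3 : (1 : ℝ) ≤ ng g 1 := by exact_mod_cast (hu 1 le_rfl).1
  set N := ((Finset.Icc 1 K).filter (fun k => c * (ng g k : ℝ) < ng g (k + 1))).card with hN
  have hNN : (((Finset.Icc 2 K).filter (fun k => c * (ng g k : ℝ) < ng g (k + 1))).card : ℝ) ≤ N := by
    have h1 : (Finset.Icc 2 K).filter (fun k => c * (ng g k : ℝ) < ng g (k + 1)) ⊆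
        (Finset.Icc 1 K).filter (fun k => c * (ng g k : ℝ) < ng g (k + 1)) :=
      Finset.filter_subset_filter _ (Finset.Icc_subset_Icc (by norm_num) le_rfl)
    exact_mod_cast Finset.card_le_card h1
  refine hNN.trans ?_
  have hg0 : (3 : ℝ) ≤ g := by exact_mod_cast hg
  have hK0 : (2 : ℝ) ≤ K := by exact_mod_cast hK
  have hgK : (6 : ℝ) ≤ g * K := by nlinarith
  have hc0 : 0 < c := by linarith
  have h5 : c ^ N ≤ 4 * (16 * ((g : ℝ) * K)) ^ (2 * g) := by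
    calc c ^ N = c ^ N * 1 := by ring
      _ ≤ c ^ N * (ng g 1 : ℝ) := mul_le_mul_of_nonneg_left h3 (by positivity)
      _ ≤ (ng g (K + 1) : ℝ) := h1
      _ ≤ ((4 * (16 * g * K) ^ (2 * g) : ℕ) : ℝ) := by exact_mod_cast h2
      _ = _ := by push_cast; ring
  have h6 := Real.log_le_log (by positivity) h5
  rw [Real.log_pow, Real.log_mul (by norm_num) (by positivity), Real.log_pow,
    Real.log_mul (by norm_num) (by positivity)] at h6
  push_cast at h6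
  have h7 : Real.log 6 ≤ Real.log (g * K) := Real.log_le_log (by norm_num) hgK
  have h8 : Real.log 4 ≤ Real.log 6 := Real.log_le_log (by norm_num) (by norm_num)
  have h9 : 3 * Real.log 16 ≤ 5 * Real.log 6 := by
    have : Real.log ((16 : ℝ) ^ 3) ≤ Real.log ((6 : ℝ) ^ 5) :=
      Real.log_le_log (by norm_num) (by norm_num)
    rw [Real.log_pow, Real.log_pow] at this
    push_cast at this
    linarith
  have h10 : 0 < Real.log 6 := Real.log_pos (by norm_num)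
  rw [le_div_iff₀ hlc]
  set x := Real.log ((g : ℝ) * K) with hx
  have h11 : 2 * (g : ℝ) * (Real.log 16 + x) ≤ 2 * (g : ℝ) * (8 / 3 * x) := by
    apply mul_le_mul_of_nonneg_left _ (by positivity)
    linarith
  have h12 : Real.log 4 ≤ (g : ℝ) / 3 * x := by
    have : 1 * x ≤ (g : ℝ) / 3 * x := mul_le_mul_of_nonneg_right (by linarith) (by linarith)
    linarith
  have h13 : 0 ≤ (g : ℝ) * x := by
    have : 0 ≤ x := by linarith
    positivity
  calc (N : ℝ) * Real.log c ≤ Real.log 4 + 2 * (g : ℝ) * (Real.log 16 + x) := h6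
    _ ≤ (g : ℝ) / 3 * x + 2 * (g : ℝ) * (8 / 3 * x) := add_le_add h12 h11
    _ ≤ 6 * g * x := by nlinarith

theorem all (G : ℕ) (hG : 3 ≤ G) (c : ℝ) (hc : 1 < c) (K : ℕ) (hK : 2 ≤ K) :
    ({k : ℕ | 2 ≤ k ∧ k ≤ K ∧ ∃ g : ℕ, 3 ≤ g ∧ g ≤ G ∧
      c * (ng g k : ℝ) < ng g (k + 1)}.ncard : ℝ) ≤
      6 * (G : ℝ) ^ 2 * Real.log (G * K) / Real.log c := by
  have hlc : 0 < Real.log c := Real.log_pos hc
  have hK0 : (2 : ℝ) ≤ K := by exact_mod_cast hK
  have hG0 : (3 : ℝ) ≤ G := by exact_mod_cast hG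
  have h1 : {k : ℕ | 2 ≤ k ∧ k ≤ K ∧ ∃ g : ℕ, 3 ≤ g ∧ g ≤ G ∧
      c * (ng g k : ℝ) < ng g (k + 1)} ⊆
      (((Finset.Icc 3 G).biUnion (fun g => (Finset.Icc 2 K).filter
        (fun k => c * (ng g k : ℝ) < ng g (k + 1))) : Finset ℕ) : Set ℕ) := by
    rintro k ⟨hk1, hk2, g, hg1, hg2, hg3⟩
    exact mem_coe.2 (mem_biUnion.2 ⟨g, mem_Icc.2 ⟨hg1, hg2⟩, mem_filter.2 ⟨mem_Icc.2 ⟨hk1, hk2⟩, hg3⟩⟩)
  have h2 := Set.ncard_le_ncard h1 (Finset.finite_toSet _)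
  rw [Set.ncard_coe_finset] at h2
  have h3 : ∀ g ∈ Finset.Icc 3 G, (((Finset.Icc 2 K).filter
      (fun k => c * (ng g k : ℝ) < ng g (k + 1))).card : ℝ) ≤
      6 * G * Real.log (G * K) / Real.log c := by
    intro g hg
    obtain ⟨hg1, hg2⟩ := mem_Icc.1 hg
    refine (one g hg1 c hc K hK).trans ?_
    have e1 : (g : ℝ) ≤ G := by exact_mod_cast hg2
    have e2 : (3 : ℝ) ≤ g := by exact_mod_cast hg1
    have e3 : Real.log (g * K) ≤ Real.log (G * K) :=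
      Real.log_le_log (by positivity) (mul_le_mul_of_nonneg_right e1 (by linarith))
    have e4 : 0 ≤ Real.log (g * K) := Real.log_nonneg (by nlinarith)
    apply div_le_div_of_nonneg_right _ hlc.le
    exact mul_le_mul (by linarith) e3 e4 (by positivity)
  have h4 : ({k : ℕ | 2 ≤ k ∧ k ≤ K ∧ ∃ g : ℕ, 3 ≤ g ∧ g ≤ G ∧
      c * (ng g k : ℝ) < ng g (k + 1)}.ncard : ℝ) ≤
      ∑ g ∈ Finset.Icc 3 G, (((Finset.Icc 2 K).filter
      (fun k => c * (ng g k : ℝ) < ng g (k + 1))).card : ℝ) := by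
    exact_mod_cast h2.trans card_biUnion_le
  refine h4.trans ((sum_le_sum h3).trans ?_)
  rw [sum_const, Nat.card_Icc, nsmul_eq_mul]
  have h5 : ((G + 1 - 3 : ℕ) : ℝ) ≤ G := by exact_mod_cast (by omega : G + 1 - 3 ≤ G)
  have h6 : 0 ≤ 6 * G * Real.log (G * K) / Real.log c := by
    have : 0 ≤ Real.log ((G : ℝ) * K) := Real.log_nonneg (by nlinarith)
    positivity
  calc ((G + 1 - 3 : ℕ) : ℝ) * (6 * G * Real.log (G * K) / Real.log c)
      ≤ G * (6 * G * Real.log (G * K) / Real.log c) := mul_le_mul_of_nonneg_right h5 h6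
    _ = _ := by ring

end Pool.Agent.GR11.U73
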